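import Pool.Agent.J6H54.CH.Stm

/-!
# Upper bound for the sum over the exponents (adapted from `J6H50/CG/M32`)
-/

set_option autoImplicit false

namespace Pool.Agent.J6H54.CH22

open Finset Filter Topology Pool.Agent.J6H54.CH

theorem sum_Icc_shift (g : ℕ → ℝ) (M : ℕ) : ∑ m ∈ Icc 1 M, g m = ∑ n ∈ range M, g (n + 1) := by
  induction M with
  | zero => simp
  | succ M ih => rw [Finset.sum_Icc_succ_top (by omega), ih, Finset.sum_range_succ]

theorem m22 (h20 : S_Fup) (h21 : S_E) : S_sumF := by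
  intro Λ _ σ T p q κ M C0 C R C' K a b ρ hH hT hB hC hK hR
  obtain ⟨D0, θ, hθ0, hθ1, hE⟩ := h21 Λ σ T p q κ M C0 C R C' K a b ρ hH hT hB hC hK hR
  have hρ := hR.pos
  have hb := hR.b_pos
  have hsum : Summable (fun m : ℕ => (m : ℝ) * θ ^ m) := by
    have h := summable_pow_mul_geometric_of_norm_lt_one 1
      (r := θ) (by rw [Real.norm_eq_abs, abs_of_pos hθ0]; exact hθ1)
    simpa using h
  have hS0 : 0 ≤ ∑' m : ℕ, (m : ℝ) * θ ^ m :=
    tsum_nonneg fun m => mul_nonneg (Nat.cast_nonneg m) (pow_nonneg hθ0.le m)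
  have hc1 : 0 ≤ (2 / ρ) ^ K * b :=
    mul_nonneg (pow_nonneg (div_nonneg (by norm_num) hρ.le) K) hb.le
  have hc2 : 0 ≤ |D0| * ∑' m : ℕ, (m : ℝ) * θ ^ m := mul_nonneg (abs_nonneg _) hS0
  refine ⟨(2 / ρ) ^ K * b + |D0| * ∑' m : ℕ, (m : ℝ) * θ ^ m, add_nonneg hc1 hc2, ?_⟩
  intro q' hq0 hq1 hqR N X hX
  have hqR1 : q' ^ R ≤ 1 := pow_le_one₀ hq0.le hq1.le
  have hqR0 : 0 < q' ^ R := pow_pos hq0 R
  set z : ℝ := ρ * q' ^ R with hz
  have hz0 : 0 < z := mul_pos hρ hqR0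
  have hzρ : z ≤ ρ := by
    rw [hz]; exact mul_le_of_le_one_right hρ.le hqR1
  have hz1 : z ≤ 1 := hzρ.trans hR.lt_one.le
  have hzl : ρ / 2 ≤ z := by
    rw [hz]
    have := mul_le_mul_of_nonneg_left hqR hρ.le
    linarith
  have hlog : 0 ≤ -Real.log (1 - q') := by
    have := Real.log_nonpos (x := 1 - q') (by linarith) (by linarith)
    linarith
  -- one exponent
  have hone : ∀ m : ℕ, 1 ≤ m → ∑ x ∈ X m, z ^ clen σ T (x, (m : ℤ)) ≤
      (2 / ρ) ^ K * b * (q' ^ m / m) + |D0| * (m * θ ^ m) := by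
    intro m hm
    have hm0 : (0 : ℝ) < m := by exact_mod_cast hm
    have h1 := h20 Λ σ T p q κ M C0 C K hH hT hC hK m z (X m) hm hz0 hz1 (hX m hm)
    have h2 : A σ T p q C m z ≤ b * q' ^ m := hR.le q' hq0 hq1.le m
    have h3 := hE m z hm hzl hzρ
    set Fm : ℝ := ∑ x ∈ X m, z ^ clen σ T (x, (m : ℤ)) with hFm
    have h3' : E σ T p q C m z ≤ |D0| * (m * θ ^ m) :=
      h3.trans (mul_le_mul_of_nonneg_right (le_abs_self D0)
        (mul_nonneg hm0.le (pow_nonneg hθ0.le m)))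
    have hzK : 0 < z ^ K := pow_pos hz0 K
    have h4 : 1 ≤ (2 / ρ) ^ K * z ^ K := by
      rw [← mul_pow]
      apply one_le_pow₀
      rw [div_mul_eq_mul_div, le_div_iff₀ hρ]
      linarith
    have h5 : z ^ K * (m * Fm) ≤
        z ^ K * ((2 / ρ) ^ K * b * q' ^ m + m * E σ T p q C m z) := by
      have h6 : b * q' ^ m ≤ z ^ K * ((2 / ρ) ^ K * b * q' ^ m) := by
        have h7 := mul_le_mul_of_nonneg_right h4 (mul_nonneg hb.le (pow_nonneg hq0.le m))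
        calc b * q' ^ m = 1 * (b * q' ^ m) := (one_mul _).symm
          _ ≤ (2 / ρ) ^ K * z ^ K * (b * q' ^ m) := h7
          _ = z ^ K * ((2 / ρ) ^ K * b * q' ^ m) := by ring
      rw [mul_add]
      linarith
    have h6 := le_of_mul_le_mul_left h5 hzK
    have h7 : (m : ℝ) * Fm ≤
        m * ((2 / ρ) ^ K * b * (q' ^ m / m) + |D0| * (m * θ ^ m)) := by
      have h8 : (m : ℝ) * ((2 / ρ) ^ K * b * (q' ^ m / m)) = (2 / ρ) ^ K * b * q' ^ m := by
        field_simp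
      rw [mul_add, h8]
      have h9 := mul_le_mul_of_nonneg_left h3' hm0.le
      linarith
    exact le_of_mul_le_mul_left h7 hm0
  -- the sum
  have hs1 : ∑ m ∈ Icc 1 N, q' ^ m / (m : ℝ) ≤ -Real.log (1 - q') := by
    rw [sum_Icc_shift (fun m => q' ^ m / m) N]
    have h := Real.hasSum_pow_div_log_of_abs_lt_one (x := q') (by rw [abs_of_pos hq0]; exact hq1)
    have h2 := sum_le_hasSum (range N) (fun i _ => by positivity) h
    refine le_trans (le_of_eq ?_) h2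
    refine Finset.sum_congr rfl fun n _ => ?_
    push_cast
    rfl
  have hs2 : ∑ m ∈ Icc 1 N, ((m : ℝ) * θ ^ m) ≤ ∑' m : ℕ, (m : ℝ) * θ ^ m :=
    hsum.sum_le_tsum _ (fun m _ => mul_nonneg (Nat.cast_nonneg m) (pow_nonneg hθ0.le m))
  calc ∑ m ∈ Icc 1 N, ∑ x ∈ X m, z ^ clen σ T (x, (m : ℤ))
      ≤ ∑ m ∈ Icc 1 N, ((2 / ρ) ^ K * b * (q' ^ m / m) + |D0| * (m * θ ^ m)) :=
        Finset.sum_le_sum fun m hm => hone m (Finset.mem_Icc.1 hm).1
    _ = (2 / ρ) ^ K * b * ∑ m ∈ Icc 1 N, q' ^ m / (m : ℝ) +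
          |D0| * ∑ m ∈ Icc 1 N, ((m : ℝ) * θ ^ m) := by
        rw [Finset.sum_add_distrib, ← Finset.mul_sum, ← Finset.mul_sum]
    _ ≤ (2 / ρ) ^ K * b * (-Real.log (1 - q')) + |D0| * ∑' m : ℕ, (m : ℝ) * θ ^ m :=
        add_le_add (mul_le_mul_of_nonneg_left hs1 hc1)
          (mul_le_mul_of_nonneg_left hs2 (abs_nonneg _))
    _ ≤ _ := by nlinarith [mul_nonneg hc1 hlog, mul_nonneg hc2 hlog]

end Pool.Agent.J6H54.CH22
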