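import Pool.Agent.J6H54.CH.Fin
import Pool.Agent.J6H1.CH.M01
import Pool.Agent.J6H48.CH.M02
import Pool.Agent.J6H61.CH.M03
import Pool.Agent.J6H85.CH.M04
import Pool.Agent.J6H44.CH.M05
import Pool.Agent.J6H98.CH.M06
import Pool.Agent.J6H27.CH.M07
import Pool.Agent.J6H47.CH.M08
import Pool.Agent.J6H87.CH.M09
import Pool.Agent.J6H62.CH.M10
import Pool.Agent.J6H29.CH.M11
import Pool.Agent.J6H24.CH.M12
import Pool.Agent.J6H19.CH.M13
import Pool.Agent.J6H94.CH.M14
import Pool.Agent.J6H68.CH.M15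
import Pool.Agent.J6H62.CH.M16
import Pool.Agent.J6H18.CH.M17
import Pool.Agent.J6H62.CH.M18
import Pool.Agent.J6H86.CH.M19
import Pool.Agent.J6H62.CH.M20
import Pool.Agent.J6H76.CH.M21
import Pool.Agent.J6H54.CH.M22
import Pool.Agent.J6H88.CH.M23
import Pool.Agent.J6H47.CH.M24
import Pool.Agent.J6H68.CH.M25
import Pool.Agent.J6H26.CH.M26
import Pool.Agent.J6H86.CH.M27
import Pool.Agent.J6H48.CH.M28
import Pool.Agent.J6H82.CH.M29
import Pool.Agent.J6H10.CG.M29
import Pool.Agent.J6H75.CG.M30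
import Pool.Agent.J6H54.CG.M31

/-!
# All modules of project CH together
-/

set_option autoImplicit false

namespace Pool.Agent.J6H54.CH

theorem metric : S_metric := Pool.Agent.J6H48.CH02.m02

theorem inw : S_in := Pool.Agent.J6H61.CH03.m03

theorem split : S_split := Pool.Agent.J6H44.CH05.m05

theorem inside : S_inside := Pool.Agent.J6H85.CH04.m04 metric inw

theorem collect : S_collect := Pool.Agent.J6H98.CH06.m06 inw split

theorem window : S_window := Pool.Agent.J6H27.CH07.m07 metric inw inside split collect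

theorem low : S_low := Pool.Agent.J6H87.CH09.m09

theorem key : S_key := Pool.Agent.J6H62.CH10.m10 metric window Pool.Agent.J6H47.CH08.m08 low

theorem rng : S_range := Pool.Agent.J6H29.CH11.m11 metric

theorem enl : S_enl := Pool.Agent.J6H24.CH12.m12

theorem rho : S_rho :=
  Pool.Agent.J6H68.CH15.m15 (Pool.Agent.J6H19.CH13.m13 enl) Pool.Agent.J6H94.CH14.m14

theorem cj : S_cj := Pool.Agent.J6H62.CH16.m16

theorem pow : S_pow := Pool.Agent.J6H18.CH17.m17

theorem rep : S_rep := Pool.Agent.J6H62.CH18.m18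

theorem flow : S_Flow := Pool.Agent.J6H86.CH19.m19 cj rep

theorem fup : S_Fup := Pool.Agent.J6H62.CH20.m20 cj pow rep

theorem sumF : S_sumF := Pool.Agent.J6H54.CH22.m22 fup (Pool.Agent.J6H76.CH21.m21 rng cj pow)

theorem zero : S_zero :=
  Pool.Agent.J6H26.CH26.m26 enl cj (Pool.Agent.J6H88.CH23.m23 inw low cj)
    Pool.Agent.J6H47.CH24.m24 Pool.Agent.J6H68.CH25.m25

/-- transcendence for every group with a model -/
theorem all (Λ : Type) [AddCommGroup Λ] (σ : Λ ≃ₗ[ℤ] Λ) (p q : Λ → ℝ) (κ M C0 : ℝ)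
    (H : Hyp σ p q κ M C0) (G : Type) [Group G] (f : G → Λ × ℤ) (hf : Mdl σ G f) (S : Finset G)
    (hS : Subgroup.closure (S : Set G) = ⊤) :
    ¬ ∃ P : Polynomial (Polynomial ℚ), P ≠ 0 ∧
      Polynomial.eval₂ Polynomial.coeToPowerSeries.ringHom
        (PowerSeries.mk (fun n : ℕ => (((cset S n).ncard : ℕ) : ℚ))) P = 0 :=
  final Pool.Agent.J6H1.CH01.m01 window key rng rho flow sumF zero
    Pool.Agent.J6H86.CH27.m27 (Pool.Agent.J6H48.CH28.m28 cj) (Pool.Agent.J6H82.CH29.m29 cj)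
    Pool.Agent.J6H10.CG29.m29 Pool.Agent.J6H75.CG30.m30 Pool.Agent.J6H54.CG31.m31
    Λ σ p q κ M C0 H G f hf S hS

end Pool.Agent.J6H54.CH
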