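import Mathlib

/-!
# Word length in the group `Λ ⋊ ℤ`, the generator of `ℤ` acting by a hyperbolic automorphism `σ`

Points `(x, m) : Λ × ℤ` are multiplied by `(x, m) (y, n) = (x + σ ^ m y, m + n)`.
-/

set_option autoImplicit false

namespace Pool.Agent.J6H54.CH

variable {Λ : Type} [AddCommGroup Λ]

/-- the hyperbolic structure: `p` is a norm of the expanding component, `q` a norm of the
contracting component -/
structure Hyp (σ : Λ ≃ₗ[ℤ] Λ) (p q : Λ → ℝ) (κ M C0 : ℝ) : Prop where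
  κ_pos : 0 < κ
  κ_lt : κ < 1
  one_le_M : 1 ≤ M
  one_le_C0 : 1 ≤ C0
  p_nonneg : ∀ x, 0 ≤ p x
  q_nonneg : ∀ x, 0 ≤ q x
  p_zero : p 0 = 0
  q_zero : q 0 = 0
  p_neg : ∀ x, p (-x) = p x
  q_neg : ∀ x, q (-x) = q x
  p_add : ∀ x y, p (x + y) ≤ p x + p y
  q_add : ∀ x y, q (x + y) ≤ q x + q y
  p_contr : ∀ x, p (σ⁻¹ x) ≤ κ * p x
  q_contr : ∀ x, q (σ x) ≤ κ * q x
  p_grow : ∀ x, p (σ x) ≤ M * p x
  q_grow : ∀ x, q (σ⁻¹ x) ≤ M * q x
  fin : ∀ B : ℝ, {x | p x ≤ B ∧ q x ≤ B}.Finite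
  sep : ∀ x, p x = 0 → q x = 0 → x = 0
  appr : ∀ x y, ∃ z, p (x - z) ≤ C0 ∧ q (y - z) ≤ C0
  nontriv : ∃ x : Λ, x ≠ 0

/-- product -/
def mul (σ : Λ ≃ₗ[ℤ] Λ) (a b : Λ × ℤ) : Λ × ℤ := (a.1 + (σ ^ a.2) b.1, a.2 + b.2)

/-- inverse -/
def inv (σ : Λ ≃ₗ[ℤ] Λ) (a : Λ × ℤ) : Λ × ℤ := (-((σ ^ (-a.2)) a.1), -a.2)

/-- value of a word -/
def val (σ : Λ ≃ₗ[ℤ] Λ) (w : List (Λ × ℤ)) : Λ × ℤ := w.foldr (mul σ) (0, 0)

/-- height of the end of a word -/
def ht (w : List (Λ × ℤ)) : ℤ := (w.map Prod.snd).sum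

/-- all letters of `w` are in `T` -/
def Wd (T : Finset (Λ × ℤ)) (w : List (Λ × ℤ)) : Prop := ∀ s ∈ w, s ∈ T

/-- `T` is a finite symmetric generating set -/
structure Gen (σ : Λ ≃ₗ[ℤ] Λ) (T : Finset (Λ × ℤ)) : Prop where
  symm : ∀ s ∈ T, inv σ s ∈ T
  gen : ∀ a : Λ × ℤ, ∃ w : List (Λ × ℤ), Wd T w ∧ val σ w = a

/-- word length with respect to `T` -/
noncomputable def len (σ : Λ ≃ₗ[ℤ] Λ) (T : Finset (Λ × ℤ)) (a : Λ × ℤ) : ℕ :=
  sInf {n | ∃ w : List (Λ × ℤ), Wd T w ∧ val σ w = a ∧ w.length = n}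

/-- `w` is a shortest word for its value -/
def Geo (σ : Λ ≃ₗ[ℤ] Λ) (T : Finset (Λ × ℤ)) (w : List (Λ × ℤ)) : Prop :=
  Wd T w ∧ len σ T (val σ w) = w.length

/-- conjugacy -/
def Cj (σ : Λ ≃ₗ[ℤ] Λ) (a b : Λ × ℤ) : Prop := ∃ c, mul σ c a = mul σ b c

/-- length of the conjugacy class of `a` -/
noncomputable def clen (σ : Λ ≃ₗ[ℤ] Λ) (T : Finset (Λ × ℤ)) (a : Λ × ℤ) : ℕ :=
  sInf {n | ∃ b, Cj σ a b ∧ len σ T b = n}

/-- one constant `R` for all bounds on the letters and on the vertical generator -/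
structure Bd (σ : Λ ≃ₗ[ℤ] Λ) (T : Finset (Λ × ℤ)) (p q : Λ → ℝ) (R : ℕ) : Prop where
  one_le : 1 ≤ R
  ht_le : ∀ s ∈ T, s.2.natAbs ≤ R
  p_le : ∀ s ∈ T, p s.1 ≤ R
  q_le : ∀ s ∈ T, q s.1 ≤ R
  t_le : len σ T (0, 1) ≤ R
  t'_le : len σ T (0, -1) ≤ R

section basic
variable {σ : Λ ≃ₗ[ℤ] Λ} {T : Finset (Λ × ℤ)}

theorem pow_add_apply (m n : ℤ) (x : Λ) : (σ ^ (m + n)) x = (σ ^ m) ((σ ^ n) x) := by
  rw [zpow_add]; rfl

theorem pow_neg_pow (m : ℤ) (x : Λ) : (σ ^ (-m)) ((σ ^ m) x) = x := by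
  rw [← pow_add_apply, neg_add_cancel]; simp

theorem pow_pow_neg (m : ℤ) (x : Λ) : (σ ^ m) ((σ ^ (-m)) x) = x := by
  rw [← pow_add_apply, add_neg_cancel]; simp

@[simp] theorem pow_zero_apply (x : Λ) : (σ ^ (0 : ℤ)) x = x := by simp

@[simp] theorem val_nil : val σ [] = (0, 0) := rfl

theorem val_cons (s : Λ × ℤ) (w : List (Λ × ℤ)) : val σ (s :: w) = mul σ s (val σ w) := rfl

@[simp] theorem ht_nil : ht ([] : List (Λ × ℤ)) = 0 := rfl

@[simp] theorem ht_cons (s : Λ × ℤ) (w : List (Λ × ℤ)) : ht (s :: w) = s.2 + ht w := by simp [ht]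

@[simp] theorem ht_append (u w : List (Λ × ℤ)) : ht (u ++ w) = ht u + ht w := by simp [ht]

theorem mul_fst (a b : Λ × ℤ) : (mul σ a b).1 = a.1 + (σ ^ a.2) b.1 := rfl

theorem mul_snd (a b : Λ × ℤ) : (mul σ a b).2 = a.2 + b.2 := rfl

theorem val_snd (w : List (Λ × ℤ)) : (val σ w).2 = ht w := by
  induction w with
  | nil => rfl
  | cons s w ih => rw [val_cons, mul_snd, ih, ht_cons]

theorem mul_assoc' (a b c : Λ × ℤ) : mul σ (mul σ a b) c = mul σ a (mul σ b c) := by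
  apply Prod.ext
  · simp only [mul_fst, mul_snd, pow_add_apply, map_add, add_assoc]
  · simp only [mul_snd, add_assoc]

theorem one_mul' (a : Λ × ℤ) : mul σ (0, 0) a = a := by
  apply Prod.ext <;> simp [mul]

theorem mul_one' (a : Λ × ℤ) : mul σ a (0, 0) = a := by
  apply Prod.ext <;> simp [mul]

theorem mul_inv' (a : Λ × ℤ) : mul σ a (inv σ a) = (0, 0) := by
  apply Prod.ext
  · simp only [mul, inv, map_neg, pow_pow_neg]; simp
  · simp [mul, inv]

theorem inv_mul' (a : Λ × ℤ) : mul σ (inv σ a) a = (0, 0) := by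
  apply Prod.ext
  · simp only [mul, inv]; simp
  · simp [mul, inv]

theorem inv_inv' (a : Λ × ℤ) : inv σ (inv σ a) = a := by
  apply Prod.ext
  · simp only [inv, map_neg, neg_neg, pow_pow_neg]
  · simp [inv]

theorem inv_mul_rev (a b : Λ × ℤ) : inv σ (mul σ a b) = mul σ (inv σ b) (inv σ a) := by
  have h1 : mul σ (mul σ a b) (mul σ (inv σ b) (inv σ a)) = (0, 0) := by
    rw [mul_assoc', ← mul_assoc' b, mul_inv', one_mul', mul_inv']
  calc inv σ (mul σ a b)
      = mul σ (inv σ (mul σ a b)) (mul σ (mul σ a b) (mul σ (inv σ b) (inv σ a))) := by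
        rw [h1, mul_one']
    _ = mul σ (inv σ b) (inv σ a) := by rw [← mul_assoc', inv_mul', one_mul']

theorem val_append (u w : List (Λ × ℤ)) : val σ (u ++ w) = mul σ (val σ u) (val σ w) := by
  induction u with
  | nil => simp [one_mul']
  | cons s u ih => rw [List.cons_append, val_cons, ih, val_cons, mul_assoc']

/-- the value of a concatenation, first coordinate -/
theorem val_append_fst (u w : List (Λ × ℤ)) :
    (val σ (u ++ w)).1 = (val σ u).1 + (σ ^ ht u) (val σ w).1 := by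
  rw [val_append, mul_fst, val_snd]

theorem Wd.append {u w : List (Λ × ℤ)} (hu : Wd T u) (hw : Wd T w) : Wd T (u ++ w) := by
  intro s hs
  rcases List.mem_append.1 hs with h | h
  · exact hu s h
  · exact hw s h

theorem Wd.left {u w : List (Λ × ℤ)} (h : Wd T (u ++ w)) : Wd T u := fun s hs =>
  h s (List.mem_append_left _ hs)

theorem Wd.right {u w : List (Λ × ℤ)} (h : Wd T (u ++ w)) : Wd T w := fun s hs =>
  h s (List.mem_append_right _ hs)

/-- reversed inverse word -/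
def rinv (σ : Λ ≃ₗ[ℤ] Λ) (w : List (Λ × ℤ)) : List (Λ × ℤ) := (w.map (inv σ)).reverse

theorem inv_zero : inv σ (0, 0) = (0, 0) := by simp [inv]

theorem val_singleton (s : Λ × ℤ) : val σ [s] = s := by rw [val_cons, val_nil, mul_one']

theorem val_rinv (w : List (Λ × ℤ)) : val σ (rinv σ w) = inv σ (val σ w) := by
  induction w with
  | nil => simp [rinv, inv_zero]
  | cons s w ih =>
    have : rinv σ (s :: w) = rinv σ w ++ [inv σ s] := by simp [rinv]
    rw [this, val_append, ih, val_singleton, val_cons, inv_mul_rev]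

theorem length_rinv (w : List (Λ × ℤ)) : (rinv σ w).length = w.length := by simp [rinv]

theorem wd_rinv (hT : Gen σ T) {w : List (Λ × ℤ)} (hw : Wd T w) : Wd T (rinv σ w) := by
  intro s hs
  simp only [rinv, List.mem_reverse, List.mem_map] at hs
  obtain ⟨a, ha, rfl⟩ := hs
  exact hT.symm a (hw a ha)

/-- a word is at least as long as its value -/
theorem len_le {w : List (Λ × ℤ)} (hw : Wd T w) : len σ T (val σ w) ≤ w.length :=
  Nat.sInf_le ⟨w, hw, rfl, rfl⟩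

theorem len_le' {w : List (Λ × ℤ)} {a : Λ × ℤ} (hw : Wd T w) (h : val σ w = a) :
    len σ T a ≤ w.length := by
  rw [← h]; exact len_le hw

/-- geodesic words exist -/
theorem exists_geo (hT : Gen σ T) (a : Λ × ℤ) :
    ∃ w, Wd T w ∧ val σ w = a ∧ w.length = len σ T a := by
  have hne : {n | ∃ w : List (Λ × ℤ), Wd T w ∧ val σ w = a ∧ w.length = n}.Nonempty := by
    obtain ⟨w, hw, h⟩ := hT.gen a
    exact ⟨w.length, w, hw, h, rfl⟩
  exact Nat.sInf_mem hne

theorem exists_geo' (hT : Gen σ T) (a : Λ × ℤ) : ∃ w, Geo σ T w ∧ val σ w = a := by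
  obtain ⟨w, hw, h, h'⟩ := exists_geo hT a
  exact ⟨w, ⟨hw, by rw [h, h']⟩, h⟩

theorem len_zero : len σ T (0, 0) = 0 :=
  Nat.le_zero.1 (len_le' (w := []) (by intro s hs; simp at hs) rfl)

/-- triangle inequality -/
theorem len_mul (hT : Gen σ T) (a b : Λ × ℤ) : len σ T (mul σ a b) ≤ len σ T a + len σ T b := by
  obtain ⟨u, hu, rfl, hul⟩ := exists_geo hT a
  obtain ⟨w, hw, rfl, hwl⟩ := exists_geo hT b
  rw [← hul, ← hwl, ← List.length_append]
  exact len_le' (hu.append hw) (val_append u w)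

theorem len_inv_le (hT : Gen σ T) (a : Λ × ℤ) : len σ T (inv σ a) ≤ len σ T a := by
  obtain ⟨u, hu, rfl, hul⟩ := exists_geo hT a
  rw [← hul, ← length_rinv (σ := σ) u]
  exact len_le' (wd_rinv hT hu) (val_rinv u)

theorem len_inv (hT : Gen σ T) (a : Λ × ℤ) : len σ T (inv σ a) = len σ T a := by
  apply le_antisymm (len_inv_le hT a)
  have := len_inv_le hT (inv σ a)
  rwa [inv_inv'] at this

/-- triangle inequality in coordinates -/
theorem len_add (hT : Gen σ T) (x y : Λ) (m n : ℤ) :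
    len σ T (x + (σ ^ m) y, m + n) ≤ len σ T (x, m) + len σ T (y, n) :=
  len_mul hT (x, m) (y, n)

/-- parts of geodesic words are geodesic -/
theorem Geo.mid (hT : Gen σ T) {u v w : List (Λ × ℤ)} (h : Geo σ T (u ++ v ++ w)) :
    Geo σ T v := by
  obtain ⟨h1, h2⟩ := h
  have hu : Wd T u := h1.left.left
  have hv : Wd T v := h1.left.right
  have hw : Wd T w := h1.right
  refine ⟨hv, le_antisymm (len_le hv) ?_⟩
  obtain ⟨v', hv', hval, hlen⟩ := exists_geo hT (val σ v)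
  have h3 : val σ (u ++ v' ++ w) = val σ (u ++ v ++ w) := by
    rw [val_append, val_append, hval, ← val_append, ← val_append]
  have h4 := len_le' ((hu.append hv').append hw) h3
  rw [h2] at h4
  simp only [List.length_append] at h4
  omega

theorem Geo.left (hT : Gen σ T) {u v : List (Λ × ℤ)} (h : Geo σ T (u ++ v)) : Geo σ T u := by
  have : Geo σ T ([] ++ u ++ v) := by simpa using h
  exact this.mid hT

theorem Geo.right (hT : Gen σ T) {u v : List (Λ × ℤ)} (h : Geo σ T (u ++ v)) : Geo σ T v := by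
  have : Geo σ T (u ++ v ++ []) := by simpa using h
  exact this.mid hT

/-- moving in the direction of the second coordinate -/
theorem len_vert (hT : Gen σ T) {p q : Λ → ℝ} {R : ℕ} (hB : Bd σ T p q R) (m : ℤ) :
    len σ T (0, m) ≤ R * m.natAbs := by
  have key : ∀ (ε : ℤ), len σ T (0, ε) ≤ R → ∀ n : ℕ, len σ T (0, ε * n) ≤ R * n := by
    intro ε hε n
    induction n with
    | zero => simp [len_zero]
    | succ n ih =>
      have h := len_add hT 0 0 (ε * n) ε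
      simp only [map_zero, add_zero] at h
      have h2 : ε * ((n + 1 : ℕ) : ℤ) = ε * n + ε := by push_cast; ring
      rw [h2, Nat.mul_succ]
      omega
  rcases Int.natAbs_eq m with h | h
  · have := key 1 hB.t_le m.natAbs
    rw [one_mul, ← h] at this
    exact this
  · have := key (-1) hB.t'_le m.natAbs
    rw [neg_one_mul, ← h] at this
    exact this

end basic

section hyp
variable {σ : Λ ≃ₗ[ℤ] Λ} {p q : Λ → ℝ} {κ M C0 : ℝ}

theorem Hyp.p_sub (H : Hyp σ p q κ M C0) (x y : Λ) : p (x - y) ≤ p x + p y := by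
  rw [sub_eq_add_neg, ← H.p_neg y]; exact H.p_add _ _

theorem Hyp.q_sub (H : Hyp σ p q κ M C0) (x y : Λ) : q (x - y) ≤ q x + q y := by
  rw [sub_eq_add_neg, ← H.q_neg y]; exact H.q_add _ _

/-- `p` contracts under negative powers -/
theorem Hyp.p_pow (H : Hyp σ p q κ M C0) (n : ℕ) (x : Λ) :
    p ((σ ^ (-(n : ℤ))) x) ≤ κ ^ n * p x := by
  induction n with
  | zero => simp
  | succ n ih =>
    have e : (σ ^ (-((n + 1 : ℕ) : ℤ))) x = σ⁻¹ ((σ ^ (-(n : ℤ))) x) := by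
      have : (-((n + 1 : ℕ) : ℤ)) = -1 + -(n : ℤ) := by push_cast; ring
      rw [this, pow_add_apply]; simp
    rw [e, pow_succ]
    have h1 := H.p_contr ((σ ^ (-(n : ℤ))) x)
    have h2 := mul_le_mul_of_nonneg_left ih H.κ_pos.le
    linarith

/-- `q` contracts under positive powers -/
theorem Hyp.q_pow (H : Hyp σ p q κ M C0) (n : ℕ) (x : Λ) :
    q ((σ ^ (n : ℤ)) x) ≤ κ ^ n * q x := by
  induction n with
  | zero => simp
  | succ n ih =>
    have e : (σ ^ ((n + 1 : ℕ) : ℤ)) x = σ ((σ ^ (n : ℤ)) x) := by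
      have : ((n + 1 : ℕ) : ℤ) = 1 + (n : ℤ) := by push_cast; ring
      rw [this, pow_add_apply]; simp
    rw [e, pow_succ]
    have h1 := H.q_contr ((σ ^ (n : ℤ)) x)
    have h2 := mul_le_mul_of_nonneg_left ih H.κ_pos.le
    linarith

/-- `p` grows at most like `M ^ n` -/
theorem Hyp.p_up (H : Hyp σ p q κ M C0) (n : ℕ) (x : Λ) :
    p ((σ ^ (n : ℤ)) x) ≤ M ^ n * p x := by
  induction n with
  | zero => simp
  | succ n ih =>
    have e : (σ ^ ((n + 1 : ℕ) : ℤ)) x = σ ((σ ^ (n : ℤ)) x) := by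
      have : ((n + 1 : ℕ) : ℤ) = 1 + (n : ℤ) := by push_cast; ring
      rw [this, pow_add_apply]; simp
    rw [e, pow_succ]
    have h1 := H.p_grow ((σ ^ (n : ℤ)) x)
    have h2 := mul_le_mul_of_nonneg_left ih (by linarith [H.one_le_M] : (0 : ℝ) ≤ M)
    linarith

theorem Hyp.fin_box (H : Hyp σ p q κ M C0) (C : ℝ) (h : ℕ) :
    {v | q v ≤ C ∧ p ((σ ^ (-(h : ℤ))) v) ≤ C}.Finite := by
  refine (H.fin (max C (M ^ h * C))).subset fun v hv => ⟨?_, hv.1.trans (le_max_left _ _)⟩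
  have h1 := H.p_up h ((σ ^ (-(h : ℤ))) v)
  rw [pow_pow_neg] at h1
  have h2 : 0 ≤ M ^ h := pow_nonneg (by linarith [H.one_le_M]) h
  have h3 := mul_le_mul_of_nonneg_left hv.2 h2
  exact (h1.trans h3).trans (le_max_right _ _)

end hyp

open Classical in
/-- the box of the `v` with `q v ≤ C` and `p (σ ^ (-h) v) ≤ C` -/
noncomputable def bx (σ : Λ ≃ₗ[ℤ] Λ) (p q : Λ → ℝ) (C : ℝ) (h : ℕ) : Finset Λ :=
  if hf : {v | q v ≤ C ∧ p ((σ ^ (-(h : ℤ))) v) ≤ C}.Finite then hf.toFinset else ∅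

theorem mem_bx {σ : Λ ≃ₗ[ℤ] Λ} {p q : Λ → ℝ} {κ M C0 : ℝ} (H : Hyp σ p q κ M C0) {C : ℝ} {h : ℕ}
    {v : Λ} : v ∈ bx σ p q C h ↔ q v ≤ C ∧ p ((σ ^ (-(h : ℤ))) v) ≤ C := by
  unfold bx
  rw [dif_pos (H.fin_box C h)]
  simp

/-- the generating function `A_h` of the lengths in the box, at a real number -/
noncomputable def A (σ : Λ ≃ₗ[ℤ] Λ) (T : Finset (Λ × ℤ)) (p q : Λ → ℝ) (C : ℝ) (h : ℕ) (z : ℝ) : ℝ :=
  ∑ v ∈ bx σ p q C h, z ^ len σ T (v, (h : ℤ))

/-- number of positions at which the path of `w` started at the height `s` has a height at distance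
at most `R` from `j` -/
noncomputable def vis (j : ℤ) (R : ℕ) (s : ℤ) (w : List (Λ × ℤ)) : ℕ :=
  ((Finset.range (w.length + 1)).filter (fun i => (s + ht (w.take i) - j).natAbs ≤ R)).card

/-- the path of `w` started at the height `s` avoids the heights at distance at most `R` from `j` -/
def Av (j : ℤ) (R : ℕ) (s : ℤ) (w : List (Λ × ℤ)) : Prop :=
  ∀ i ≤ w.length, R < (s + ht (w.take i) - j).natAbs

/-- the path of `w` started at the height `s` stays at distance at most `D` from `j`, except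
possibly at its two ends -/
def Inn (j : ℤ) (D : ℕ) (s : ℤ) (w : List (Λ × ℤ)) : Prop :=
  ∀ i, 0 < i → i < w.length → (s + ht (w.take i) - j).natAbs ≤ D

end Pool.Agent.J6H54.CH
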