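import Pool.Agent.J6H54.CH.Stm
import Pool.Agent.J6H54.CG.Stm

/-!
# Assembly of project CH
-/

set_option autoImplicit false

namespace Pool.Agent.J6H54.CH

open Finset Filter Topology

/-- The final theorem from the statements of the modules, for a group with a model. -/
theorem final (h1 : S_const) (h7 : S_window) (h10 : S_key) (h11 : S_range) (h15 : S_rho)
    (h19 : S_Flow) (h22 : S_sumF) (h26 : S_zero) (h27 : S_words) (h28 : S_cset) (h29 : S_count)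
    (e29 : CG.S_eval) (e30 : CG.S_crit) (e31 : CG.S_logs)
    (Λ : Type) [AddCommGroup Λ] (σ : Λ ≃ₗ[ℤ] Λ) (p q : Λ → ℝ) (κ M C0 : ℝ)
    (H : Hyp σ p q κ M C0) (G : Type) [Group G] (f : G → Λ × ℤ) (hf : Mdl σ G f) (S : Finset G)
    (hS : Subgroup.closure (S : Set G) = ⊤) :
    ¬ ∃ P : Polynomial (Polynomial ℚ), P ≠ 0 ∧
      Polynomial.eval₂ Polynomial.coeToPowerSeries.ringHom
        (PowerSeries.mk (fun n : ℕ => (((cset S n).ncard : ℕ) : ℚ))) P = 0 := by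
  rintro ⟨P, hP0, hP⟩
  obtain ⟨T, hT, hw⟩ := h27 Λ σ G f S hf hS
  obtain ⟨R, hB⟩ := h1 Λ σ T p q
  obtain ⟨Pw, hPw⟩ := h7 Λ σ T p q κ M C0 R H hT hB
  set C : ℝ := 4 * C0 with hCdef
  have hC : 4 * C0 ≤ C := le_refl _
  obtain ⟨K1, hK1⟩ := h10 Λ σ T p q κ M C0 R (C + C0) H hT hB
  obtain ⟨K2, hK2⟩ := h10 Λ σ T p q κ M C0 R (C / (1 - κ)) H hT hB
  obtain ⟨hr, C', hC'⟩ := h11 Λ σ T p q κ M C0 R C H hT hB
  obtain ⟨a, b, ρ, hρ⟩ := h15 Λ σ T p q κ M C0 C R C' K1 H hT hB hC hK1 hr hC'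
  obtain ⟨hfin, hmem, hcj⟩ := h28 Λ σ G f S T hf hT hw
  obtain ⟨hup, hlow⟩ := h29 Λ σ G f S T hf hT hfin hmem hcj
  obtain ⟨C1, hC1⟩ := h26 Λ σ T p q κ M C0 C R C' Pw a b ρ H hT hB hC hρ hPw
  obtain ⟨C2, hC20, hC2⟩ := h22 Λ σ T p q κ M C0 C R C' K2 a b ρ H hT hB hC hK2 hρ
  obtain ⟨Nf, hNf1, hNf⟩ := h19 Λ σ T p q κ M C0 C H hT hC
  have hNfp : (0 : ℝ) < Nf := by exact_mod_cast hNf1
  -- the classes of exponent `m`
  have hX : ∀ m : ℕ, ∃ X : Finset Λ, 1 ≤ m → NC σ m X ∧ ∀ z : ℝ, 0 < z → z ≤ 1 →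
      A σ T p q C m z ≤ Nf * (m * ∑ x ∈ X, z ^ clen σ T (x, (m : ℤ))) := by
    intro m
    by_cases hm : 1 ≤ m
    · obtain ⟨X, hX⟩ := hNf m hm
      exact ⟨X, fun _ => hX⟩
    · exact ⟨∅, fun h => absurd h hm⟩
  choose X hX using hX
  set co : ℕ → ℕ := fun n => (cset S n).ncard with hco
  have hρ0 := hρ.pos
  have hzpos : ∀ t : ℝ, 0 < t → 0 < ρ * t ^ R := fun t ht => mul_pos hρ0 (pow_pos ht R)
  have hnl : ∀ t : ℝ, 0 < t → t < 1 → 0 ≤ - Real.log (1 - t) := by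
    intro t h0 h1
    have : Real.log (1 - t) ≤ 0 := Real.log_nonpos (by linarith) (by linarith)
    linarith
  -- bounds for the partial sums
  have hpart : ∀ t : ℝ, 0 < t → t < 1 → 1 / 2 ≤ t ^ R → ∀ N : ℕ,
      ∑ n ∈ range N, (co n : ℝ) * (ρ * t ^ R) ^ n ≤
        (|C1| + 2 * C2) - (|C1| + 2 * C2) * Real.log (1 - t) := by
    intro t ht0 ht1 htR N
    obtain ⟨N', X0, Y, Y', hX0, hY, hY', hN⟩ := hup N
    have e1 := hN (ρ * t ^ R) (hzpos t ht0)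
    have hz1 : ρ / 2 ≤ ρ * t ^ R := by nlinarith
    have hz2 : ρ * t ^ R ≤ ρ := by
      have : t ^ R ≤ 1 := pow_le_one₀ ht0.le ht1.le
      nlinarith
    have e2 := hC1 (ρ * t ^ R) hz1 hz2 X0 hX0
    have e3 := hC2 t ht0 ht1 htR N' Y hY
    have e3' := hC2 t ht0 ht1 htR N' Y' hY'
    have e4 := hnl t ht0 ht1
    have e5 : C1 ≤ |C1| := le_abs_self C1
    have e6 : 0 ≤ |C1| * (-Real.log (1 - t)) := mul_nonneg (abs_nonneg _) e4
    calc ∑ n ∈ range N, (co n : ℝ) * (ρ * t ^ R) ^ n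
        ≤ _ := e1
      _ ≤ C1 + ((C2 - C2 * Real.log (1 - t)) + (C2 - C2 * Real.log (1 - t))) := by
          exact add_le_add e2 (add_le_add e3 e3')
      _ ≤ _ := by nlinarith
  have hsum : ∀ t : ℝ, 0 < t → t < 1 → 1 / 2 ≤ t ^ R →
      Summable (fun n => (co n : ℝ) * (ρ * t ^ R) ^ n) := by
    intro t ht0 ht1 htR
    refine summable_of_sum_range_le (c := (|C1| + 2 * C2) - (|C1| + 2 * C2) * Real.log (1 - t))
      (fun n => ?_) (fun N => hpart t ht0 ht1 htR N)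
    have := hzpos t ht0
    positivity
  set g : ℝ → ℝ := fun x => ∑' n, (co n : ℝ) * x ^ n with hg
  have hgup : ∀ t : ℝ, 0 < t → t < 1 → 1 / 2 ≤ t ^ R →
      g (ρ * t ^ R) ≤ (|C1| + 2 * C2) - (|C1| + 2 * C2) * Real.log (1 - t) := by
    intro t ht0 ht1 htR
    refine Real.tsum_le_of_sum_range_le (fun n => ?_) (fun N => hpart t ht0 ht1 htR N)
    have := hzpos t ht0
    positivity
  have hglow : ∀ t : ℝ, 0 < t → t < 1 → 1 / 2 ≤ t ^ R → ∀ N' : ℕ,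
      ∑ m ∈ Icc 1 N', (a / Nf * t ^ (R * C' * (m + 1)) - (1 / 2) ^ m) / m ≤ g (ρ * t ^ R) := by
    intro t ht0 ht1 htR N'
    obtain ⟨N, hN⟩ := hlow N' X (fun m hm => (hX m hm).1)
    have hz0 := hzpos t ht0
    have hz1 : ρ * t ^ R ≤ 1 := by
      have h1 : t ^ R ≤ 1 := pow_le_one₀ ht0.le ht1.le
      have h2 := hρ.lt_one
      nlinarith
    refine le_trans ?_ ((hN _ hz0).trans ?_)
    · refine Finset.sum_le_sum fun m hm => ?_
      have hm1 : 1 ≤ m := (Finset.mem_Icc.1 hm).1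
      have hmp : (0 : ℝ) < m := by exact_mod_cast hm1
      have f1 := (hX m hm1).2 (ρ * t ^ R) hz0 hz1
      have f2 := hρ.ge t ht0 ht1.le m
      rw [div_le_iff₀ hmp]
      have f3 : a * t ^ (R * (C' * (m + 1))) ≤
          Nf * (m * ∑ x ∈ X m, (ρ * t ^ R) ^ clen σ T (x, (m : ℤ))) := f2.trans f1
      have f4 : a / Nf * t ^ (R * C' * (m + 1)) ≤
          m * ∑ x ∈ X m, (ρ * t ^ R) ^ clen σ T (x, (m : ℤ)) := by
        rw [div_mul_eq_mul_div, div_le_iff₀ hNfp, mul_assoc R C' (m + 1)]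
        linarith
      have f5 : (0 : ℝ) ≤ (1 / 2) ^ m := by positivity
      linarith
    · refine (hsum t ht0 ht1 htR).sum_le_tsum _ (fun n _ => ?_)
      positivity
  obtain ⟨ht1, ht2⟩ := e31 g ρ (a / Nf) (1 / 2) (|C1| + 2 * C2) R (R * C') hρ0 hB.one_le
    (div_pos hρ.a_pos hNfp) (by norm_num) (by norm_num) hglow hgup
  refine e30 g ρ ht1 ht2 P hP0 ?_
  have hev : ∀ᶠ x in 𝓝[<] ρ, x ∈ Set.Ioo (ρ / 2) ρ :=
    Ioo_mem_nhdsLT (by linarith)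
  filter_upwards [hev] with x hx
  -- write `x = ρ t ^ R`
  have hR0 : (R : ℝ) ≠ 0 := by
    have := hB.one_le
    positivity
  have hx0 : 0 < x := by linarith [hx.1]
  have hxρ : 0 < x / ρ := div_pos hx0 hρ0
  set t : ℝ := (x / ρ) ^ ((R : ℝ)⁻¹) with ht
  have ht0 : 0 < t := Real.rpow_pos_of_pos hxρ _
  have htR : t ^ R = x / ρ := by
    rw [ht, ← Real.rpow_natCast, ← Real.rpow_mul hxρ.le, inv_mul_cancel₀ hR0, Real.rpow_one]
  have hx1 : x / ρ < 1 := by rw [div_lt_one hρ0]; exact hx.2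
  have ht1' : t < 1 := by
    by_contra hcon
    have : 1 ≤ t ^ R := one_le_pow₀ (not_lt.1 hcon)
    rw [htR] at this
    linarith
  have ht2' : 1 / 2 ≤ t ^ R := by
    rw [htR, le_div_iff₀ hρ0]
    linarith [hx.1]
  have hxq : ρ * t ^ R = x := by
    rw [htR]; field_simp
  have hsx : Summable (fun n => (co n : ℝ) * x ^ n) := by
    have := hsum t ht0 ht1' ht2'
    rwa [hxq] at this
  exact e29 co x hx0 hsx P hP

end Pool.Agent.J6H54.CH
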