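import Pool.Agent.J6H54.CH.Defs

/-!
# Statements of the modules of project CH (MP_a1853d_al, second result)

Final theorem: let `A ∈ GL_n(ℤ)` be hyperbolic (no eigenvalue of modulus one), `n ≥ 1`.  For every
finite generating set of `ℤⁿ ⋊_A ℤ` the conjugacy growth series is transcendental.

The project is parallel to project CG (`Pool/Agent/J6H54/CG/Stm.lean`, all modules proved; the files
are named in `Pool/Agent/J6H54/CG/All.lean`); the rational numbers with the real absolute value and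
the denominators are replaced by an abelian group `Λ` with two norms `p` (expanding) and `q`
(contracting), see `Defs.lean`, `Hyp`.  There is no condition like `KA` any more: every element of
`Λ` is allowed.  Each docstring names the module of CG which can be adapted and what changes.
-/

set_option autoImplicit false

namespace Pool.Agent.J6H54.CH

open Finset Filter Topology

/-- CH-01.  `T` is finite.  (Compare `J6H54/CG/M01`.) -/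
def S_const : Prop := ∀ (Λ : Type) [AddCommGroup Λ] (σ : Λ ≃ₗ[ℤ] Λ) (T : Finset (Λ × ℤ))
  (p q : Λ → ℝ), ∃ R : ℕ, Bd σ T p q R

/-- CH-02.  Length of translations.  There is a constant `c` with `len (x, 0) ≤ c` for all `x` with
`p x, q x ≤ (2 + M) C0 + 2 + κ C0` (finitely many `x`, `Hyp.fin`).  (1) If `p (σ ^ (-L) y) ≤ 1` and
`q y ≤ 1`: choose `y_i` (`i ≤ L + 1`) with `p (σ ^ (-i) y - y_i) ≤ C0`, `q y_i ≤ C0` (`Hyp.appr` with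
the targets `σ ^ (-i) y` and `0`), except `y_0 = y`; put `x_i = y_i - σ y_{i+1}` for `i ≤ L`; then
`p x_i ≤ p (y_i - σ ^ (-i) y) + p (σ (σ ^ (-(i+1)) y - y_{i+1})) ≤ C0 + M C0` and
`q x_i ≤ q y_i + κ q y_{i+1} ≤ C0 + 1 + κ C0`, and `y_{L+1}` has `p ≤ C0 + 1`, `q ≤ C0`.  Since
`(y_i, 0) = (x_i, 0) (0, 1) (y_{i+1}, 0) (0, -1)`, `len (y, 0) ≤ (L + 2) (c + 2 R)`.
(2) In general replace `y` by `σ ^ (d + n) y` and `L` by `L + d + 2 n`, where `n = c' N` with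
`κ ^ c' * 2 ≤ 1`, so that `κ ^ n 2 ^ N ≤ 1` (`Hyp.p_pow`, `Hyp.q_pow`):
`(y, 0) = (0, -(d + n)) (σ ^ (d + n) y, 0) (0, d + n)`. -/
def S_metric : Prop := ∀ (Λ : Type) [AddCommGroup Λ] (σ : Λ ≃ₗ[ℤ] Λ) (T : Finset (Λ × ℤ))
  (p q : Λ → ℝ) (κ M C0 : ℝ) (R : ℕ), Hyp σ p q κ M C0 → Gen σ T → Bd σ T p q R →
  ∃ C : ℕ, ∀ (d L N : ℕ) (y : Λ), p ((σ ^ (-(L : ℤ))) y) ≤ 2 ^ N → q ((σ ^ (d : ℤ)) y) ≤ 2 ^ N →
    len σ T (y, 0) ≤ C * (d + L + N + 1)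

/-- CH-03.  The value of a word whose path stays between `lo` and `hi` (except possibly at its last
point).  By induction on `w`, generalizing `s`; a letter `x` at the height `h` contributes
`σ ^ h x`, with `p (σ ^ (h - hi) x) ≤ p x` and `q (σ ^ (h - lo) x) ≤ q x` (`Hyp.p_pow`,
`Hyp.q_pow`).  (Compare `J6H54/CG/M03`.) -/
def S_in : Prop := ∀ (Λ : Type) [AddCommGroup Λ] (σ : Λ ≃ₗ[ℤ] Λ) (T : Finset (Λ × ℤ))
  (p q : Λ → ℝ) (κ M C0 : ℝ) (R : ℕ), Hyp σ p q κ M C0 → Bd σ T p q R →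
  ∀ (w : List (Λ × ℤ)) (lo hi s : ℤ), Wd T w →
  (∀ i < w.length, lo ≤ s + ht (w.take i) ∧ s + ht (w.take i) ≤ hi) →
  p ((σ ^ (s - hi)) (val σ w).1) ≤ w.length * R ∧ q ((σ ^ (s - lo)) (val σ w).1) ≤ w.length * R

/-- CH-04.  A geodesic word whose path stays at distance at most `D` from `j` (except possibly at its
two ends) has bounded length.  As `J6H16/CG/M04`: remove the first letter; for the rest `v`, started
at `s'` with `|s' - j| ≤ D`, `S_in` with `lo = j - D`, `hi = j + D`, then shift to `d = L = 2 D`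
(`Hyp.p_pow`, `Hyp.q_pow`) and `S_metric` with `|v| R ≤ 2 ^ N`, `N` about `log₂ (|v| R)`. -/
def S_inside : Prop := ∀ (Λ : Type) [AddCommGroup Λ] (σ : Λ ≃ₗ[ℤ] Λ) (T : Finset (Λ × ℤ))
  (p q : Λ → ℝ) (κ M C0 : ℝ) (R D : ℕ), Hyp σ p q κ M C0 → Gen σ T → Bd σ T p q R →
  ∃ N : ℕ, ∀ (j s : ℤ) (w : List (Λ × ℤ)), Geo σ T w → Inn j D s w → w.length ≤ N

/-- CH-05.  First passage through the window, about heights only: as `J6H97/CG/M05`. -/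
def S_split : Prop := ∀ (Λ : Type) [AddCommGroup Λ] (T : Finset (Λ × ℤ)) (R D : ℕ) (j s : ℤ)
  (w : List (Λ × ℤ)), 1 ≤ R → (∀ a ∈ T, a.2.natAbs ≤ R) → Wd T w → R ≤ D → D < (s - j).natAbs →
  (∃ e1 e2 : List (Λ × ℤ), w = e1 ++ e2 ∧ Av j R s e1 ∧
    ∀ i, 0 < i → i ≤ e2.length → (s + ht e1 + ht (e2.take i) - j).natAbs ≤ D) ∨
  (∃ o t w' : List (Λ × ℤ), w = o ++ t ++ w' ∧ t ≠ [] ∧ Av j R s o ∧
    D < (s + ht o - j).natAbs ∧ (s + ht o - j).natAbs ≤ D + R ∧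
    Inn j D (s + ht o) t ∧
    D < (s + ht o + ht t - j).natAbs ∧ (s + ht o + ht t - j).natAbs ≤ D + R ∧
    2 * (D - R) ≤ R * t.length)

/-- CH-06.  Collecting the excursions: as `J6H68/CG/M06` (`S_collect` of CG).  The estimates of `y`,
the sum of the contributions of the parts `t` (whose letters are at the heights `j - D - R` to
`j + D + R`), are `p (σ ^ (-(j + D + R)) y) ≤ τ R` and `q (σ ^ (-(j - D - R)) y) ≤ τ R`, by `S_in`. -/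
def S_collect : Prop := ∀ (Λ : Type) [AddCommGroup Λ] (σ : Λ ≃ₗ[ℤ] Λ) (T : Finset (Λ × ℤ))
  (p q : Λ → ℝ) (κ M C0 : ℝ) (R D B : ℕ), Hyp σ p q κ M C0 → Gen σ T → Bd σ T p q R → R ≤ D →
  (∀ (j s : ℤ) (w : List (Λ × ℤ)), Geo σ T w → Inn j D s w → w.length ≤ B) →
  ∀ (j s : ℤ) (w : List (Λ × ℤ)), Geo σ T w → D < (s - j).natAbs → (s - j).natAbs ≤ D + R →
  ∃ (xu xl y : Λ) (nu nl τ N : ℕ) (ae : ℤ) (e : List (Λ × ℤ)), Wd T e ∧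
    (σ ^ s) (val σ w).1 = xu + xl + y + (σ ^ ae) (val σ e).1 ∧
    ae + ht e = s + ht w ∧ (ae - j).natAbs ≤ D + R ∧
    p ((σ ^ (-(j + D + R))) y) ≤ τ * R ∧ q ((σ ^ (-(j - D - R))) y) ≤ τ * R ∧
    len σ T ((σ ^ (-(j + D))) xu, 0) ≤ nu ∧ len σ T ((σ ^ (-(j - D))) xl, 0) ≤ nl ∧
    nu + nl + τ + e.length ≤ w.length + 2 * R * R * N ∧
    2 * (D - R) * N ≤ R * τ ∧
    vis j R s w ≤ τ + N + B + 1

/-- CH-07.  WINDOW LEMMA: as `J6H24/CG/M07` (`D = R + 2 * R ^ 3`; the correction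
`(σ ^ (-j) y', 0)` has `p (σ ^ (-(D + R)) ·) ≤ (τ + |t|) R` and `q (σ ^ (D + R) ·) ≤ (τ + |t|) R`, so
`S_metric` with `d = L = D + R` and `N` about `log₂ ((τ + |t|) R)`). -/
def S_window : Prop := ∀ (Λ : Type) [AddCommGroup Λ] (σ : Λ ≃ₗ[ℤ] Λ) (T : Finset (Λ × ℤ))
  (p q : Λ → ℝ) (κ M C0 : ℝ) (R : ℕ), Hyp σ p q κ M C0 → Gen σ T → Bd σ T p q R →
  ∃ P : ℕ, ∀ (j s : ℤ) (w : List (Λ × ℤ)), Geo σ T w → vis j R s w ≤ P

open Classical in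
/-- sum of the contributions of the letters at heights below `c` -/
noncomputable def lowX {Λ : Type} [AddCommGroup Λ] (σ : Λ ≃ₗ[ℤ] Λ) (c : ℤ) :
    ℤ → List (Λ × ℤ) → Λ
  | _, [] => 0
  | s, a :: w => (if s < c then (σ ^ s) a.1 else 0) + lowX σ c (s + a.2) w

open Classical in
/-- sum of the contributions of the letters at heights at least `c` -/
noncomputable def highX {Λ : Type} [AddCommGroup Λ] (σ : Λ ≃ₗ[ℤ] Λ) (c : ℤ) :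
    ℤ → List (Λ × ℤ) → Λ
  | _, [] => 0
  | s, a :: w => (if s < c then 0 else (σ ^ s) a.1) + highX σ c (s + a.2) w

/-- CH-08.  CUT LEMMA: as `J6H27/CG/M08` (without `KA`, `Kad`). -/
def S_cut : Prop := ∀ (Λ : Type) [AddCommGroup Λ] (σ : Λ ≃ₗ[ℤ] Λ) (T : Finset (Λ × ℤ))
  (p q : Λ → ℝ) (R : ℕ), Gen σ T → Bd σ T p q R →
  ∀ (c s : ℤ) (w : List (Λ × ℤ)), Wd T w →
  lowX σ c s w + highX σ c s w = (σ ^ s) (val σ w).1 ∧
  len σ T ((σ ^ (-(min s c))) (lowX σ c s w), min (s + ht w) c - min s c) +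
    len σ T ((σ ^ (-(max s c))) (highX σ c s w), max (s + ht w) c - max s c) ≤
    w.length + 2 * R * R * vis c R s w

/-- CH-09.  Size of the low part and of the high part.  Each height `h` is visited at most `P` times;
a letter `x` at the height `h < c` contributes `σ ^ (h - c) x` with `p ≤ κ ^ (c - h) R`
(`Hyp.p_pow`), a letter at the height `h ≥ c` contributes `σ ^ (h - c) x` with
`q ≤ κ ^ (h - c) R` (`Hyp.q_pow`); `∑_{n ≥ 0} κ ^ n = 1 / (1 - κ)`.  (Compare `J6H54/CG/M09`.) -/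
def S_low : Prop := ∀ (Λ : Type) [AddCommGroup Λ] (σ : Λ ≃ₗ[ℤ] Λ) (T : Finset (Λ × ℤ))
  (p q : Λ → ℝ) (κ M C0 : ℝ) (R P : ℕ), Hyp σ p q κ M C0 → Bd σ T p q R →
  ∀ (c s : ℤ) (w : List (Λ × ℤ)), Wd T w → (∀ j, vis j R s w ≤ P) →
  p ((σ ^ (-c)) (lowX σ c s w)) ≤ P * R / (1 - κ) ∧
    q ((σ ^ (-c)) (highX σ c s w)) ≤ P * R / (1 - κ)

/-- quasi-additivity of the length on the boxes of size `C` -/
def Key {Λ : Type} [AddCommGroup Λ] (σ : Λ ≃ₗ[ℤ] Λ) (T : Finset (Λ × ℤ)) (p q : Λ → ℝ) (C : ℝ)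
    (K : ℕ) : Prop :=
  ∀ (h1 h2 : ℕ) (v1 v2 : Λ), v1 ∈ bx σ p q C h1 → v2 ∈ bx σ p q C h2 →
    len σ T (v1, (h1 : ℤ)) + len σ T (v2, (h2 : ℤ)) ≤
      len σ T (v1 + (σ ^ (h1 : ℤ)) v2, ((h1 + h2 : ℕ) : ℤ)) + K

/-- CH-10.  KEY LEMMA: as `J6H8/CG/M10`.  `w` geodesic with value `(v1 + σ ^ h1 v2, h1 + h2)`, cut at
`c = h1`; `y = σ ^ (-h1) (xl - v1) = v2 - σ ^ (-h1) xh` satisfies `p y ≤ P R / (1 - κ) + C` (first
expression) and `q y ≤ C + P R / (1 - κ)` (second one), so it is in a finite set (`Hyp.fin`) and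
`len (y, 0)`, `len (-y, 0) ≤ K1`. -/
def S_key : Prop := ∀ (Λ : Type) [AddCommGroup Λ] (σ : Λ ≃ₗ[ℤ] Λ) (T : Finset (Λ × ℤ))
  (p q : Λ → ℝ) (κ M C0 : ℝ) (R : ℕ) (C : ℝ), Hyp σ p q κ M C0 → Gen σ T → Bd σ T p q R →
  ∃ K : ℕ, Key σ T p q C K

/-- CH-11.  Range of the lengths.  As `J6H54/CG/M11`; for `v` in the box of height `h` use `S_metric`
with `d = 0`, `L = h`, `C ≤ 2 ^ N`. -/
def S_range : Prop := ∀ (Λ : Type) [AddCommGroup Λ] (σ : Λ ≃ₗ[ℤ] Λ) (T : Finset (Λ × ℤ))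
  (p q : Λ → ℝ) (κ M C0 : ℝ) (R : ℕ) (C : ℝ), Hyp σ p q κ M C0 → Gen σ T → Bd σ T p q R →
  (∀ a : Λ × ℤ, a.2.natAbs ≤ R * len σ T a) ∧
  ∃ C' : ℕ, ∀ (h : ℕ), ∀ v ∈ bx σ p q C h, len σ T (v, (h : ℤ)) ≤ C' * (h + 1)

/-- CH-12.  Changing the size of the boxes: `C ≥ 4 C0`.  For `v` in the box of size `C'` and height
`h` choose `y1` with `q (v - y1) ≤ C0`, `p y1 ≤ C0` and then `y2` with
`p (σ ^ (-h) (v - y1) - y2) ≤ C0`, `q y2 ≤ C0`; `v' = v - y1 - σ ^ h y2` is in the box of size `2 C0`,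
`y1`, `y2` are in a finite set (`Hyp.fin`; `q y1 ≤ C0 + C'`, `p y2 ≤ C0 + C' + C0`), and
`(v, h) = (y1, 0) (v', h) (y2, 0)`, so `len (v', h) ≤ len (v, h) + c`.  `v ↦ (v', y1, y2)` is
injective. -/
def S_enl : Prop := ∀ (Λ : Type) [AddCommGroup Λ] (σ : Λ ≃ₗ[ℤ] Λ) (T : Finset (Λ × ℤ))
  (p q : Λ → ℝ) (κ M C0 : ℝ) (C C' z₀ : ℝ), Hyp σ p q κ M C0 → Gen σ T → 4 * C0 ≤ C → 0 < z₀ →
  ∃ b : ℝ, 0 < b ∧ ∀ (h : ℕ) (z : ℝ), z₀ ≤ z → z ≤ 1 → A σ T p q C' h z ≤ b * A σ T p q C h z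

/-- CH-13.  Quasi-multiplicativity of `A_h` (size `C ≥ 4 C0`).  (1) The map
`(v1, v2) ↦ v1 + σ ^ h1 v2` from the product of the boxes to the box of size `2 C` and height
`h1 + h2` is at most `n`-to-one, where `n` is the number of `y` with `p y, q y ≤ 2 C`
(`v2 - v2' = σ ^ (-h1) (v1' - v1)`), and the length of the image is at most the sum of the lengths;
then `S_enl` (hypothesis) with `C' = 2 C`.  (2) For `v` in the box of height `h1 + h2` choose `v2` with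
`p (σ ^ (-h1) v - v2) ≤ C0`, `q v2 ≤ C0` and `v1 = v - σ ^ h1 v2`; both are in the boxes of size
`C + C0` (`p (σ ^ (-h2) v2) ≤ C0 + C`); `v ↦ (v1, v2)` is injective; the length of `v` is at least the
sum of the lengths minus `K` (`Key` with the size `C + C0`), so
`z ^ K * A_{h1+h2} ≤ A'_{h1} A'_{h2}` with the size `C + C0`; `S_enl` again. -/
def S_mulA : Prop := ∀ (Λ : Type) [AddCommGroup Λ] (σ : Λ ≃ₗ[ℤ] Λ) (T : Finset (Λ × ℤ))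
  (p q : Λ → ℝ) (κ M C0 : ℝ) (C z₀ : ℝ) (K : ℕ), Hyp σ p q κ M C0 → Gen σ T → 4 * C0 ≤ C → 0 < z₀ →
  Key σ T p q (C + C0) K →
  ∃ a b : ℝ, 0 < a ∧ 0 < b ∧ ∀ (h1 h2 : ℕ) (z : ℝ), z₀ ≤ z → z ≤ 1 →
    a * (A σ T p q C h1 z * A σ T p q C h2 z) ≤ A σ T p q C (h1 + h2) z ∧
    A σ T p q C (h1 + h2) z ≤ b * (A σ T p q C h1 z * A σ T p q C h2 z)

/-- the properties of the radius `ρ`; the points below `ρ` are written `ρ * t ^ R` with `0 < t ≤ 1` -/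
structure Rad {Λ : Type} [AddCommGroup Λ] (σ : Λ ≃ₗ[ℤ] Λ) (T : Finset (Λ × ℤ)) (p q : Λ → ℝ)
    (C : ℝ) (R C' : ℕ) (a b ρ : ℝ) : Prop where
  a_pos : 0 < a
  b_pos : 0 < b
  pos : 0 < ρ
  lt_one : ρ < 1
  le : ∀ t : ℝ, 0 < t → t ≤ 1 → ∀ h, A σ T p q C h (ρ * t ^ R) ≤ b * t ^ h
  ge : ∀ t : ℝ, 0 < t → t ≤ 1 → ∀ h, a * t ^ (R * (C' * (h + 1))) ≤ A σ T p q C h (ρ * t ^ R)

/-- CH-14.  Size of the boxes.  (1) at most `(|T| + 1) ^ (C' (h + 1))` elements: each is the value of a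
word of length at most `C' (h + 1)`.  (2) unbounded: take `x ≠ 0`.  `p x > 0` and `q x > 0` for all
`x ≠ 0` (if `p x = 0` then all `σ ^ n x`, `n ≥ 0`, are in `{p ≤ 0, q ≤ q x}`, a finite set, while
`q (σ ^ n x) ≤ κ ^ n q x` is positive (`Hyp.sep`) and tends to `0`; similarly for `q`), so the
`σ ^ i x` are pairwise different (`q (σ ^ i x)` is strictly decreasing in `i`), and `σ ^ i x` is in
the box of height `h` as soon as `i₀ ≤ i ≤ h - i₀`. -/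
def S_box : Prop := ∀ (Λ : Type) [AddCommGroup Λ] (σ : Λ ≃ₗ[ℤ] Λ) (T : Finset (Λ × ℤ))
  (p q : Λ → ℝ) (κ M C0 : ℝ) (C : ℝ) (C' : ℕ), Hyp σ p q κ M C0 → Gen σ T → 4 * C0 ≤ C →
  (∀ (h : ℕ), ∀ v ∈ bx σ p q C h, len σ T (v, (h : ℤ)) ≤ C' * (h + 1)) →
  (∀ h : ℕ, (bx σ p q C h).card ≤ (T.card + 1) ^ (C' * (h + 1))) ∧
  (∀ n : ℕ, ∃ h : ℕ, n ≤ (bx σ p q C h).card)

/-- CH-15.  The radius; from `S_mulA` and `S_box` (hypotheses).  Choose `z₀ > 0` with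
`(|T| + 1) ^ C' * z₀ ^ (1 / R) ≤ 1`, i.e. `z₀ ≤ (|T| + 1) ^ (-(C' R))`, so that
`A_h(z₀) ≤ (|T| + 1) ^ (C' (h + 1)) z₀ ^ (h / R) ≤ (|T| + 1) ^ C'` (`h ≤ R len`), and constants `a`,
`b` from `S_mulA` for this `z₀`; decrease `a` such that `a A_h(z₀) ≤ 1` for all `h`.  Let `Z` be the
set of the `z ∈ [z₀, 1]` with `a A_h(z) ≤ 1` for all `h`, `ρ = sup Z`.  `ρ ∈ Z` (continuity),
`ρ < 1` (at `1` the `A_h` are unbounded; by continuity of one `A_h`, also near `1`).  If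
`b A_h(ρ) < 1` for some `h` (`h ≥ 1` may be assumed: replace `h` by a multiple, or note
that `b A_0 ≥ 1` follows from `A_0 ≤ b A_0 A_0`, `A_0 > 0`), then `b A_h(z) < 1` for a `z > ρ`, so
`b A_{nh}(z) ≤ (b A_h(z)) ^ n → 0`; if `a A_{h'}(z) > 1` for some `h'` (then one may take `h' ≥ 1`,
since `a A_0 ≤ 1` follows from `a A_0 A_0 ≤ A_0`) then
`a A_{n h h'}(z) ≥ (a A_{h'}(z)) ^ (n h) → ∞`, contradiction; so `z ∈ Z`, contradiction.  Hence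
`1 / b ≤ A_h(ρ) ≤ 1 / a`, and `A_h(ρ t ^ R) = ∑ ρ ^ len t ^ (R len)`,
`h ≤ R len ≤ R C' (h + 1)`. -/
def S_rho : Prop := ∀ (Λ : Type) [AddCommGroup Λ] (σ : Λ ≃ₗ[ℤ] Λ) (T : Finset (Λ × ℤ))
  (p q : Λ → ℝ) (κ M C0 : ℝ) (C : ℝ) (R C' K : ℕ), Hyp σ p q κ M C0 → Gen σ T → Bd σ T p q R →
  4 * C0 ≤ C → Key σ T p q (C + C0) K →
  (∀ a : Λ × ℤ, a.2.natAbs ≤ R * len σ T a) →
  (∀ (h : ℕ), ∀ v ∈ bx σ p q C h, len σ T (v, (h : ℤ)) ≤ C' * (h + 1)) →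
  ∃ a b ρ : ℝ, Rad σ T p q C R C' a b ρ

/-! ## Conjugacy classes with exponent `m ≥ 1` -/

/-- `(v, l) ^ d = (pw σ v l d, l d)` -/
def pw {Λ : Type} [AddCommGroup Λ] (σ : Λ ≃ₗ[ℤ] Λ) (v : Λ) (l d : ℕ) : Λ :=
  ∑ i ∈ range d, (σ ^ ((l * i : ℕ) : ℤ)) v

/-- CH-16.  Elementary facts on conjugation (compare `J6H42/CG/M15`, `J6H19/CG/M24`). -/
def S_cj : Prop := ∀ (Λ : Type) [AddCommGroup Λ] (σ : Λ ≃ₗ[ℤ] Λ) (T : Finset (Λ × ℤ)), Gen σ T →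
  (∀ a, Cj σ a a) ∧ (∀ a b, Cj σ a b → Cj σ b a) ∧ (∀ a b c, Cj σ a b → Cj σ b c → Cj σ a c) ∧
  (∀ a b, Cj σ a b → a.2 = b.2) ∧ (∀ a b, Cj σ a b → Cj σ (inv σ a) (inv σ b)) ∧
  (∀ a b, Cj σ a b → clen σ T a = clen σ T b) ∧ (∀ a, clen σ T a ≤ len σ T a) ∧
  (∀ a, clen σ T (inv σ a) = clen σ T a) ∧
  (∀ a, ∃ b, Cj σ a b ∧ len σ T b = clen σ T a) ∧
  (∀ (x x' : Λ) (m : ℤ), Cj σ (x, m) (x', m) ↔ ∃ (j : ℤ) (y : Λ), x' = (σ ^ j) x + y - (σ ^ m) y) ∧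
  (∀ (x y : Λ), Cj σ (x, 0) (y, 0) ↔ ∃ j : ℤ, y = (σ ^ j) x)

/-- CH-17.  Class length of powers: as `J6H74/CG/M14`, with the sizes: for `v` in the box of size `C`
and height `l ≥ 1` all `pw σ v l n` are in the box of size `C / (1 - κ)` and height `l n`
(`q (pw) ≤ ∑ κ ^ (l i) C`, `p (σ ^ (-(l n)) pw) ≤ ∑_{i < n} p (σ ^ (-l (n - 1 - i)) (σ ^ (-l) v))`),
and `Key` for the size `C / (1 - κ)` gives `len (p ^ n) ≥ n len p - n K`. -/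
def S_pow : Prop := ∀ (Λ : Type) [AddCommGroup Λ] (σ : Λ ≃ₗ[ℤ] Λ) (T : Finset (Λ × ℤ))
  (p q : Λ → ℝ) (κ M C0 : ℝ) (C : ℝ) (K : ℕ), Hyp σ p q κ M C0 → Gen σ T → 0 ≤ C →
  Key σ T p q (C / (1 - κ)) K →
  ∀ (v : Λ) (l d : ℕ), 1 ≤ l → v ∈ bx σ p q C l →
    d * len σ T (v, (l : ℤ)) ≤ clen σ T (pw σ v l d, ((l * d : ℕ) : ℤ)) + d * K

/-- CH-18.  Representatives in the box, size `C ≥ 4 C0`.  (1) Given `x` and `m ≥ 1`, we want `y` with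
`v = x + (σ ^ m - 1) y` in the box.  For large `n` put `Y = ∑_{i < n} σ ^ (m i) x` and
`Y' = - ∑_{1 ≤ i ≤ n} σ ^ (-m i) x`; `x + (σ ^ m - 1) Y = σ ^ (m n) x` has small `q`, and
`σ ^ (-m) (x + (σ ^ m - 1) Y') = σ ^ (-m (n + 1)) x` has small `p`.  Choose `y` with
`q (Y - y) ≤ C0`, `p (Y' - y) ≤ C0` (`Hyp.appr`); then
`q v ≤ q (σ ^ (m n) x) + q (y - Y) + q (σ ^ m (y - Y)) ≤ 1 + 2 C0 ≤ 4 C0`, and
`p (σ ^ (-m) v) ≤ 1 + p (y - Y') + p (σ ^ (-m) (y - Y')) ≤ 4 C0`.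
(2) If `v, v'` are in the box and `v' = v + (σ ^ m - 1) y` then
`q y ≤ q (σ ^ m y) + 2 C ≤ κ q y + 2 C` and `p y ≤ p (σ ^ (-m) y) + 2 C ≤ κ p y + 2 C`, so
`p y, q y ≤ 2 C / (1 - κ)` (finitely many `y`).  (3) `σ ^ m - 1` is injective for `m ≥ 1`:
`σ ^ m y = y` gives `q y ≤ κ q y`, `p y ≤ κ p y`. -/
def S_rep : Prop := ∀ (Λ : Type) [AddCommGroup Λ] (σ : Λ ≃ₗ[ℤ] Λ)
  (p q : Λ → ℝ) (κ M C0 : ℝ) (C : ℝ), Hyp σ p q κ M C0 → 4 * C0 ≤ C →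
  (∀ (x : Λ) (m : ℕ), 1 ≤ m → ∃ v ∈ bx σ p q C m, ∃ y, v = x + (σ ^ (m : ℤ)) y - y) ∧
  (∃ N : ℕ, ∀ (m : ℕ), 1 ≤ m → ∀ (x : Λ) (V : Finset Λ), V ⊆ bx σ p q C m →
    (∀ v ∈ V, ∃ y, v = x + (σ ^ (m : ℤ)) y - y) → V.card ≤ N) ∧
  (∀ (m : ℕ) (y : Λ), 1 ≤ m → (σ ^ (m : ℤ)) y = y → y = 0)

/-- the points `(x, m)`, `x ∈ X`, are pairwise not conjugate -/
def NC {Λ : Type} [AddCommGroup Λ] (σ : Λ ≃ₗ[ℤ] Λ) (m : ℤ) (X : Finset Λ) : Prop :=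
  ∀ x ∈ X, ∀ y ∈ X, Cj σ (x, m) (y, m) → x = y

/-- CH-19.  Lower bound.  From `S_cj`, `S_rep` (hypotheses).  Let `X ⊆ bx C m` be a maximal subset with
`NC` (one element of each class which meets the box).  The class of `(x, m)` is the union of the cosets
`σ ^ j x + (σ ^ m - 1) Λ`, `0 ≤ j < m` (as `σ ^ m x = x + (σ ^ m - 1) x`), and each coset contains at
most `N` elements of the box (`S_rep` (2)); `clen (x, m) = clen (v, m) ≤ len (v, m)` for the elements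
`v` of the class.  So `A_m(z) ≤ N m ∑_{x ∈ X} z ^ clen (x, m)`. -/
def S_Flow : Prop := ∀ (Λ : Type) [AddCommGroup Λ] (σ : Λ ≃ₗ[ℤ] Λ) (T : Finset (Λ × ℤ))
  (p q : Λ → ℝ) (κ M C0 : ℝ) (C : ℝ), Hyp σ p q κ M C0 → Gen σ T → 4 * C0 ≤ C →
  ∃ N : ℕ, 1 ≤ N ∧ ∀ m : ℕ, 1 ≤ m → ∃ X : Finset Λ, NC σ m X ∧ ∀ z : ℝ, 0 < z → z ≤ 1 →
    A σ T p q C m z ≤ N * (m * ∑ x ∈ X, z ^ clen σ T (x, (m : ℤ)))

/-- contribution of the proper powers -/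
noncomputable def E {Λ : Type} [AddCommGroup Λ] (σ : Λ ≃ₗ[ℤ] Λ) (T : Finset (Λ × ℤ))
    (p q : Λ → ℝ) (C : ℝ) (m : ℕ) (z : ℝ) : ℝ :=
  ∑ l ∈ m.properDivisors, ∑ v ∈ bx σ p q C l, z ^ clen σ T (pw σ v l (m / l), (m : ℤ))

/-- CH-20.  Upper bound.  From `S_cj`, `S_pow`, `S_rep` (hypotheses).  Let `x ∈ X`.  First case:
`(x, m)` is conjugate to `(pw σ v l (m / l), m)` for a proper divisor `l` of `m` and
`v ∈ bx C l`: choose such `(l, v)`; by `NC` different `x` give different `(l, v)`, so these `x`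
contribute at most `E_m` (times `m`).  Second case: then the cosets `σ ^ j x + (σ ^ m - 1) Λ`, `0 ≤ j < m`,
are pairwise different: otherwise the set of the `n ∈ ℤ` with
`σ ^ n x - x ∈ (σ ^ m - 1) Λ` (a subgroup which contains `m`) is generated by a proper divisor `l` of
`m` and `σ ^ l x - x = (σ ^ m - 1) y = (σ ^ l - 1) (pw σ y l (m / l))`, so by injectivity of
`σ ^ l - 1` (`S_rep` (3)) `x = pw σ y l (m / l)`, and `y` may be replaced by `v ∈ bx C l`,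
`v = y + (σ ^ l - 1) u` (`S_rep` (1)), since `(v, l)` and `(y, l)` are conjugate by a translation,
hence so are their powers.  Choose `v_j` in the box in the coset of `σ ^ j x` (`S_rep` (1));
by `S_pow` with `d = 1`, `len (v_j, m) ≤ clen (x, m) + K`; the `v_j` are different for
different `(x, j)`. -/
def S_Fup : Prop := ∀ (Λ : Type) [AddCommGroup Λ] (σ : Λ ≃ₗ[ℤ] Λ) (T : Finset (Λ × ℤ))
  (p q : Λ → ℝ) (κ M C0 : ℝ) (C : ℝ) (K : ℕ), Hyp σ p q κ M C0 → Gen σ T → 4 * C0 ≤ C →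
  Key σ T p q (C / (1 - κ)) K → ∀ (m : ℕ) (z : ℝ) (X : Finset Λ), 1 ≤ m → 0 < z → z ≤ 1 →
  NC σ m X →
  z ^ K * (m * ∑ x ∈ X, z ^ clen σ T (x, (m : ℤ))) ≤
    A σ T p q C m z + z ^ K * (m * E σ T p q C m z)

/-- CH-21.  The proper powers are negligible: as `J6H76/CG/M19` (there `Rad.le` had the constant `1`
instead of `b`; for small `l < 2 K R` the sum over `v ∈ bx C l` has a bounded number of terms). -/
def S_E : Prop := ∀ (Λ : Type) [AddCommGroup Λ] (σ : Λ ≃ₗ[ℤ] Λ) (T : Finset (Λ × ℤ))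
  (p q : Λ → ℝ) (κ M C0 : ℝ) (C : ℝ) (R C' K : ℕ) (a b ρ : ℝ), Hyp σ p q κ M C0 → Gen σ T →
  Bd σ T p q R → 4 * C0 ≤ C → Key σ T p q (C / (1 - κ)) K → Rad σ T p q C R C' a b ρ →
  ∃ (C'' θ : ℝ), 0 < θ ∧ θ < 1 ∧ ∀ (m : ℕ) (z : ℝ), 1 ≤ m → ρ / 2 ≤ z → z ≤ ρ →
    E σ T p q C m z ≤ C'' * (m * θ ^ m)

/-- CH-22.  Upper bound for the sum over the exponents, as `J6H50/CG/M32`. -/
def S_sumF : Prop := ∀ (Λ : Type) [AddCommGroup Λ] (σ : Λ ≃ₗ[ℤ] Λ) (T : Finset (Λ × ℤ))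
  (p q : Λ → ℝ) (κ M C0 : ℝ) (C : ℝ) (R C' K : ℕ) (a b ρ : ℝ), Hyp σ p q κ M C0 → Gen σ T →
  Bd σ T p q R → 4 * C0 ≤ C → Key σ T p q (C / (1 - κ)) K → Rad σ T p q C R C' a b ρ →
  ∃ B : ℝ, 0 ≤ B ∧ ∀ t : ℝ, 0 < t → t < 1 → 1 / 2 ≤ t ^ R → ∀ (N : ℕ) (X : ℕ → Finset Λ),
    (∀ m : ℕ, 1 ≤ m → NC σ m (X m)) →
    ∑ m ∈ Icc 1 N, ∑ x ∈ X m, (ρ * t ^ R) ^ clen σ T (x, (m : ℤ)) ≤ B - B * Real.log (1 - t)

/-! ## Conjugacy classes with exponent `0` -/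

/-- CH-23.  Peak decomposition, as `J6H94/CG/M20`.  The paths of `u` and `rinv v` (geodesic, started at
`0`) stay in `[0, H]`; with `B = P R / (1 - κ)`: `q v1 ≤ B` by `S_low` with `c = 0` (`highX` is the
whole value), and `p (σ ^ (-(H + 1)) v1) ≤ B` by `S_low` with `c = H + 1`, so
`p (σ ^ (-H) v1) ≤ M B` (`Hyp.p_grow`). -/
def S_peak : Prop := ∀ (Λ : Type) [AddCommGroup Λ] (σ : Λ ≃ₗ[ℤ] Λ) (T : Finset (Λ × ℤ))
  (p q : Λ → ℝ) (κ M C0 : ℝ) (R P : ℕ), Hyp σ p q κ M C0 → Gen σ T → Bd σ T p q R →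
  (∀ (j s : ℤ) (w : List (Λ × ℤ)), Geo σ T w → vis j R s w ≤ P) →
  ∀ x : Λ, ∃ (h : ℕ) (v1 v2 : Λ) (i : ℤ), v1 - v2 = (σ ^ i) x ∧
    clen σ T (x, 0) = len σ T (v1, (h : ℤ)) + len σ T (v2, (h : ℤ)) ∧
    v1 ∈ bx σ p q (M * (P * R / (1 - κ))) h ∧ v2 ∈ bx σ p q (M * (P * R / (1 - κ))) h

/-- CH-24.  Insertion of a digit: as `J6H80/CG/M21`, with the constant
`2 * R * R + len (x, 0)`. -/
def S_insert : Prop := ∀ (Λ : Type) [AddCommGroup Λ] (σ : Λ ≃ₗ[ℤ] Λ) (T : Finset (Λ × ℤ))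
  (p q : Λ → ℝ) (R : ℕ), Gen σ T → Bd σ T p q R → ∀ (i h : ℕ) (v x : Λ), i ≤ h →
    len σ T (v + (σ ^ (i : ℤ)) x, (h : ℤ)) ≤ len σ T (v, (h : ℤ)) + (2 * R * R + len σ T (x, 0))

/-- CH-25.  Independent digits.  Take `x ≠ 0`; `p x > 0` (see `S_box`), `g ≥ 1` with
`κ ^ g < 1 / 4`.  For different finite sets `J, J'` of natural numbers let `i` be the
largest element of the symmetric difference, `y = σ ^ (g i) x`; then `p y > 0` and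
`p (σ ^ (g i') x) ≤ κ ^ (g (i - i')) p y` for `i' < i`, so the sum of the other terms
of `∑_{i ∈ J} σ ^ (g i) x - ∑_{i ∈ J'} σ ^ (g i) x` has `p ≤ (1 / 3) p y < p y`. -/
def S_digit : Prop := ∀ (Λ : Type) [AddCommGroup Λ] (σ : Λ ≃ₗ[ℤ] Λ)
  (p q : Λ → ℝ) (κ M C0 : ℝ), Hyp σ p q κ M C0 → ∃ (x : Λ) (g : ℕ), 1 ≤ g ∧
    Function.Injective (fun J : Finset ℕ => ∑ i ∈ J, (σ ^ ((g * i : ℕ) : ℤ)) x)

/-- CH-26.  The classes of exponent `0` have a bounded contribution: as `J6H98/CG/M23`.  The sets `J`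
are the subsets of `{0, …, n - 1}` with `n = h / g` (integer part), so that all `g i < h`, and
`k_J = ∑_{i ∈ J} σ ^ (g i) x` with `x, g` from `S_digit` (hypothesis); `vi + k_J` is in the box of
height `h` and size `C₁ + C₂` with `C₁ = M P R / (1 - κ)`,
`C₂ = (p x + q x) / (1 - κ)` (`q (k_J) ≤ ∑ κ ^ (g i) q x`, `p (σ ^ (-h) k_J) ≤ ∑ κ ^ (h - g i) p x`).
The map `(x, J) ↦ (v1 + k_J, v2 + k_J)` is injective: the difference is `σ ^ i x`, which determines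
`x` in `X` (`NC` and `S_cj`), hence `v1`, `k_J`, `J`.  By `S_enl` (hypothesis)
`A^{C₁ + C₂}_h(z) ≤ b' A_h(z) ≤ b' b` (`Rad.le`; `z₀ = ρ / 2`), so the sum over the `x ∈ X` with
height `h` is at most `(b' b) ^ 2 / (1 + z ^ (2 c)) ^ (h / g)`, `c = 2 R² + len (x, 0)`; sum over
`h` (each value of `h / g` occurs `g` times). -/
def S_zero : Prop := ∀ (Λ : Type) [AddCommGroup Λ] (σ : Λ ≃ₗ[ℤ] Λ) (T : Finset (Λ × ℤ))
  (p q : Λ → ℝ) (κ M C0 : ℝ) (C : ℝ) (R C' P : ℕ) (a b ρ : ℝ), Hyp σ p q κ M C0 → Gen σ T →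
  Bd σ T p q R → 4 * C0 ≤ C → Rad σ T p q C R C' a b ρ →
  (∀ (j s : ℤ) (w : List (Λ × ℤ)), Geo σ T w → vis j R s w ≤ P) →
  ∃ B : ℝ, ∀ z : ℝ, ρ / 2 ≤ z → z ≤ ρ → ∀ X : Finset Λ, NC σ 0 X →
    ∑ x ∈ X, z ^ clen σ T (x, (0 : ℤ)) ≤ B

/-! ## From the group to the model -/

/-- `f` identifies the group `G` with the group of all points `(x, m)` -/
structure Mdl {Λ : Type} [AddCommGroup Λ] (σ : Λ ≃ₗ[ℤ] Λ) (G : Type) [Group G]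
    (f : G → Λ × ℤ) : Prop where
  map_mul : ∀ g h, f (g * h) = mul σ (f g) (f h)
  bij : Function.Bijective f

/-- CH-27.  Words in `G` and words in the model, as `J6H78/CG/M26`. -/
def S_words : Prop := ∀ (Λ : Type) [AddCommGroup Λ] (σ : Λ ≃ₗ[ℤ] Λ) (G : Type) [Group G]
  (f : G → Λ × ℤ) (S : Finset G), Mdl σ G f → Subgroup.closure (S : Set G) = ⊤ →
  ∃ T : Finset (Λ × ℤ), Gen σ T ∧ ∀ (g : G) (n : ℕ),
    (∃ l : List G, l.length = n ∧ (∀ x ∈ l, x ∈ S ∨ x⁻¹ ∈ S) ∧ l.prod = g) ↔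
    (∃ w : List (Λ × ℤ), w.length = n ∧ Wd T w ∧ val σ w = f g)

/-- the set of conjugacy classes which is counted by the `n`-th coefficient -/
def cset {G : Type} [Group G] (S : Finset G) (n : ℕ) : Set (ConjClasses G) :=
  {c : ConjClasses G |
    (∃ g : G, ConjClasses.mk g = c ∧
      ∃ l : List G, l.length ≤ n ∧ (∀ x ∈ l, x ∈ S ∨ x⁻¹ ∈ S) ∧ l.prod = g) ∧
    (∀ g : G, ConjClasses.mk g = c → ∀ l : List G, (∀ x ∈ l, x ∈ S ∨ x⁻¹ ∈ S) →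
      l.prod = g → n ≤ l.length)}

/-- CH-28.  Class lengths, as `J6H57/CG/M27`. -/
def S_cset : Prop := ∀ (Λ : Type) [AddCommGroup Λ] (σ : Λ ≃ₗ[ℤ] Λ) (G : Type) [Group G]
  (f : G → Λ × ℤ) (S : Finset G) (T : Finset (Λ × ℤ)), Mdl σ G f → Gen σ T →
  (∀ (g : G) (n : ℕ),
    (∃ l : List G, l.length = n ∧ (∀ x ∈ l, x ∈ S ∨ x⁻¹ ∈ S) ∧ l.prod = g) ↔
    (∃ w : List (Λ × ℤ), w.length = n ∧ Wd T w ∧ val σ w = f g)) →
  (∀ n, (cset S n).Finite) ∧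
  (∀ (g : G) (n : ℕ), ConjClasses.mk g ∈ cset S n ↔ clen σ T (f g) = n) ∧
  (∀ g h : G, ConjClasses.mk g = ConjClasses.mk h ↔ Cj σ (f g) (f h))

/-- CH-29.  The coefficients (compare `J6H22/CG/M28`; easier, since the representatives are chosen
here).  (1) Choose one point in each of the finitely many classes counted by the coefficients below
`N`; the points of exponent `0` form `X0`, those of exponent `m ≥ 1` form `X m`, and for those of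
exponent `-m` take the inverses (`X' m`; `clen (inv a) = clen a` and conjugate inverses come from
conjugate points, `S_cj`).  (2) The classes of the points `(x, m)`, `1 ≤ m ≤ N`, `x ∈ X m`, are
distinct (different exponents, or `NC`). -/
def S_count : Prop := ∀ (Λ : Type) [AddCommGroup Λ] (σ : Λ ≃ₗ[ℤ] Λ) (G : Type) [Group G]
  (f : G → Λ × ℤ) (S : Finset G) (T : Finset (Λ × ℤ)), Mdl σ G f → Gen σ T →
  (∀ n, (cset S n).Finite) →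
  (∀ (g : G) (n : ℕ), ConjClasses.mk g ∈ cset S n ↔ clen σ T (f g) = n) →
  (∀ g h : G, ConjClasses.mk g = ConjClasses.mk h ↔ Cj σ (f g) (f h)) →
  (∀ N : ℕ, ∃ (N' : ℕ) (X0 : Finset Λ) (X X' : ℕ → Finset Λ), NC σ 0 X0 ∧
    (∀ m : ℕ, 1 ≤ m → NC σ m (X m)) ∧ (∀ m : ℕ, 1 ≤ m → NC σ m (X' m)) ∧ ∀ z : ℝ, 0 < z →
    ∑ n ∈ range N, ((cset S n).ncard : ℝ) * z ^ n ≤
      ∑ x ∈ X0, z ^ clen σ T (x, (0 : ℤ)) +
      (∑ m ∈ Icc 1 N', ∑ x ∈ X m, z ^ clen σ T (x, (m : ℤ)) +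
        ∑ m ∈ Icc 1 N', ∑ x ∈ X' m, z ^ clen σ T (x, (m : ℤ)))) ∧
  (∀ (N' : ℕ) (X : ℕ → Finset Λ), (∀ m : ℕ, 1 ≤ m → NC σ m (X m)) →
    ∃ N : ℕ, ∀ z : ℝ, 0 < z →
    ∑ m ∈ Icc 1 N', ∑ x ∈ X m, z ^ clen σ T (x, (m : ℤ)) ≤
      ∑ n ∈ range N, ((cset S n).ncard : ℝ) * z ^ n)

/-! ## The hyperbolic structure of a matrix -/

/-- CH-30.  Hyperbolic integral matrices of size two.  `λ`, `μ` the real eigenvalues, `|λ| > 1 > |μ|`,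
`λ μ = ±1` (the discriminant `tr² - 4 det` is positive and not a square); `l`, `l'` real row
vectors with `l A = λ l`, `l' A = μ l'`, linearly independent; `p x = |l x|`, `q x = |l' x|`;
`κ = |μ|`, `M = |λ|`; `Hyp.appr`: solve the real linear system `l z = l x`, `l' z = l' y` and
round the coordinates of `z`. -/
def S_two : Prop := ∀ (σ : (Fin 2 → ℤ) ≃ₗ[ℤ] (Fin 2 → ℤ)),
  2 < |LinearMap.trace ℤ (Fin 2 → ℤ) σ.toLinearMap| →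
  ∃ (p q : (Fin 2 → ℤ) → ℝ) (κ M C0 : ℝ), Hyp σ p q κ M C0

/-- CH-31.  Hyperbolic integral matrices.  Let `V = ℂⁿ`, `T` the linear map of `A`, `P` and `Q` the
projections to `E⁺`, `E⁻` (the sums of the generalized eigenspaces for eigenvalues of modulus `> 1`,
`< 1`), `P + Q = 1`, commuting with `T` (and invertible on both: `det = ±1`).  The spectral radius of
`T` on `E⁻` and of `T⁻¹` on `E⁺` is `< 1`, so there are `κ < 1`, `N` with `‖T ^ N v‖ ≤ κ ^ N ‖v‖` on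
`E⁻` and similarly on `E⁺` (Gelfand's formula).  Put `q x = ∑_{i < N} κ ^ (-i) ‖T ^ i Q x‖`,
`p x = ∑_{i < N} κ ^ (-i) ‖T ^ (-i) P x‖`.  `Hyp.fin`: `‖x‖ ≤ ‖P x‖ + ‖Q x‖`.  `Hyp.appr`: round
the coordinates of `P x + Q y` (a real vector, as `P`, `Q` are real: the set of eigenvalues is
stable under complex conjugation; or round the real parts). -/
def S_gen : Prop := ∀ (n : ℕ) (σ : (Fin (n + 1) → ℤ) ≃ₗ[ℤ] (Fin (n + 1) → ℤ)),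
  (∀ μ : ℂ, ((LinearMap.charpoly σ.toLinearMap).map (Int.castRingHom ℂ)).IsRoot μ → ‖μ‖ ≠ 1) →
  ∃ (p q : (Fin (n + 1) → ℤ) → ℝ) (κ M C0 : ℝ), Hyp σ p q κ M C0

end Pool.Agent.J6H54.CH
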