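import Pool.Agent.J6H54.CH.Stm

/-!
# Project CH, last step: ascending HNN extensions of `ℤⁿ`

Let `B` be an integral `n × n` matrix, `n ≥ 1`, `det B ≠ 0`, without complex eigenvalue of modulus
one, and `G = ⟨x_1, …, x_n, t | [x_i, x_j], t x_i t⁻¹ = x_1 ^ B_{1i} ⋯ x_n ^ B_{ni}⟩`.  This contains
both `BS(1,k)` (`n = 1`) and the groups `ℤⁿ ⋊_A ℤ` with `A ∈ GL_n(ℤ)` hyperbolic.  The group is
`Λ ⋊ ℤ` with `Λ = ⋃_d B ^ (-d) ℤⁿ ⊂ ℚⁿ`, and `Λ` has a structure `Hyp`.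
-/

set_option autoImplicit false

namespace Pool.Agent.J6H54.CH

open Finset Filter Topology Matrix

/-- the rational matrix of `B` -/
def rat {n : ℕ} (B : Matrix (Fin n) (Fin n) ℤ) : Matrix (Fin n) (Fin n) ℚ :=
  B.map (Int.castRingHom ℚ)

/-- integral vectors -/
def IsInt {n : ℕ} (x : Fin n → ℚ) : Prop := ∀ i, ∃ a : ℤ, x i = a

theorem IsInt.mulVec {n : ℕ} (B : Matrix (Fin n) (Fin n) ℤ) {x : Fin n → ℚ} (hx : IsInt x) :
    IsInt ((rat B).mulVec x) := by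
  intro i
  choose a ha using hx
  refine ⟨∑ j, B i j * a j, ?_⟩
  simp only [Matrix.mulVec, dotProduct, rat, Matrix.map_apply, Int.coe_castRingHom]
  push_cast
  exact Finset.sum_congr rfl fun j _ => by rw [ha j]

theorem IsInt.pow_mulVec {n : ℕ} (B : Matrix (Fin n) (Fin n) ℤ) {x : Fin n → ℚ} (hx : IsInt x)
    (d : ℕ) : IsInt ((rat B ^ d).mulVec x) := by
  induction d with
  | zero => simpa using hx
  | succ d ih => rw [pow_succ', ← Matrix.mulVec_mulVec]; exact ih.mulVec B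

/-- the group `Λ = ⋃_d B ^ (-d) ℤⁿ` of all rational vectors `x` such that `B ^ d x` is integral for
some `d` -/
def Lam {n : ℕ} (B : Matrix (Fin n) (Fin n) ℤ) : AddSubgroup (Fin n → ℚ) where
  carrier := {x | ∃ d : ℕ, IsInt ((rat B ^ d).mulVec x)}
  zero_mem' := ⟨0, fun i => ⟨0, by simp⟩⟩
  add_mem' := by
    rintro x y ⟨d, hd⟩ ⟨e, he⟩
    refine ⟨d + e, fun i => ?_⟩
    have h1 : IsInt ((rat B ^ (d + e)).mulVec x) := by
      rw [add_comm, pow_add, ← Matrix.mulVec_mulVec]; exact hd.pow_mulVec B e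
    have h2 : IsInt ((rat B ^ (d + e)).mulVec y) := by
      rw [pow_add, ← Matrix.mulVec_mulVec]; exact he.pow_mulVec B d
    obtain ⟨a, ha⟩ := h1 i
    obtain ⟨b, hb⟩ := h2 i
    exact ⟨a + b, by rw [Matrix.mulVec_add, Pi.add_apply, ha, hb]; push_cast; rfl⟩
  neg_mem' := by
    rintro x ⟨d, hd⟩
    refine ⟨d, fun i => ?_⟩
    obtain ⟨a, ha⟩ := hd i
    exact ⟨-a, by rw [Matrix.mulVec_neg, Pi.neg_apply, ha]; push_cast; rfl⟩

theorem rat_det {n : ℕ} (B : Matrix (Fin n) (Fin n) ℤ) (hB : B.det ≠ 0) : IsUnit (rat B).det := by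
  have h : (rat B).det = ((B.det : ℤ) : ℚ) := by
    unfold rat
    rw [← RingHom.mapMatrix_apply, ← RingHom.map_det]; rfl
  rw [h]
  exact (Int.cast_ne_zero.2 hB).isUnit

/-- the automorphism `x ↦ B x` of `Λ` -/
noncomputable def sig {n : ℕ} (B : Matrix (Fin n) (Fin n) ℤ) (hB : B.det ≠ 0) :
    Lam B ≃ₗ[ℤ] Lam B where
  toFun x := ⟨(rat B).mulVec x.1, by
    obtain ⟨d, hd⟩ := x.2
    refine ⟨d, ?_⟩
    rw [Matrix.mulVec_mulVec, ← pow_succ, pow_succ', ← Matrix.mulVec_mulVec]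
    exact hd.mulVec B⟩
  invFun x := ⟨((rat B)⁻¹).mulVec x.1, by
    obtain ⟨d, hd⟩ := x.2
    refine ⟨d + 1, ?_⟩
    rw [pow_succ, ← Matrix.mulVec_mulVec, Matrix.mulVec_mulVec _ (rat B) (rat B)⁻¹,
      Matrix.mul_nonsing_inv _ (rat_det B hB), Matrix.one_mulVec]
    exact hd⟩
  left_inv x := by
    apply Subtype.ext
    simp only [Matrix.mulVec_mulVec, Matrix.nonsing_inv_mul _ (rat_det B hB), Matrix.one_mulVec]
  right_inv x := by
    apply Subtype.ext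
    simp only [Matrix.mulVec_mulVec, Matrix.mul_nonsing_inv _ (rat_det B hB), Matrix.one_mulVec]
  map_add' x y := by
    apply Subtype.ext
    simp [Matrix.mulVec_add]
  map_smul' c x := by
    apply Subtype.ext
    ext i
    simp [Matrix.mulVec, dotProduct, Finset.mul_sum, mul_left_comm]

/-- CH-32.  Adapted norms of a hyperbolic real matrix: the linear algebra of CH-31 (`S_gen`).  `P`, `Q` the
projections to the sums of the generalized eigenspaces (over `ℂ`) for the eigenvalues of modulus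
`> 1`, `< 1`; there are `κ < 1` and `N` with `‖B ^ N v‖ ≤ κ ^ N ‖v‖` for `v = Q v` and
`‖v‖ ≤ κ ^ N ‖B ^ N v‖` for `v = P v`; `q x = ∑_{i < N} κ ^ (-i) ‖B ^ i Q x‖`,
`p x = ∑_{i < N} κ ^ (-i) ‖B ^ (-i) P x‖`.  The last property: `z = P x + Q y` (`P`, `Q` map real
vectors to real vectors). -/
def S_arch : Prop := ∀ (n : ℕ) (B : Matrix (Fin n) (Fin n) ℝ), B.det ≠ 0 →
  (∀ μ : ℂ, (B.charpoly.map (algebraMap ℝ ℂ)).IsRoot μ → ‖μ‖ ≠ 1) →
  ∃ (p q : (Fin n → ℝ) → ℝ) (κ M : ℝ), 0 < κ ∧ κ < 1 ∧ 1 ≤ M ∧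
    (∀ x, 0 ≤ p x) ∧ (∀ x, 0 ≤ q x) ∧
    (∀ x, p (-x) = p x) ∧ (∀ x, q (-x) = q x) ∧
    (∀ x y, p (x + y) ≤ p x + p y) ∧ (∀ x y, q (x + y) ≤ q x + q y) ∧
    (∀ x, p x ≤ κ * p (B.mulVec x)) ∧ (∀ x, q (B.mulVec x) ≤ κ * q x) ∧
    (∀ x, p (B.mulVec x) ≤ M * p x) ∧ (∀ x, q x ≤ M * q (B.mulVec x)) ∧
    (∀ x, ‖x‖ ≤ M * (p x + q x)) ∧ (∀ x, p x ≤ M * ‖x‖) ∧ (∀ x, q x ≤ M * ‖x‖) ∧
    (∀ x y, ∃ z, p (x - z) = 0 ∧ q (y - z) = 0)

/-- CH-33.  The structure `Hyp` of `Λ`, from `S_arch` (hypothesis).  Let `p₀, q₀` be the norms of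
`S_arch` for the real matrix of `B`; `p x = p₀ x`, `q x = q₀ x + δ x` with
`δ x = inf {2 ^ d : d ∈ ℤ, B ^ d x integral}` (`B ^ d` the rational matrix, `d` may be negative;
the set of these `d` is nonempty and upward closed; `δ x = 0` if all `d` are allowed).  Then
`δ (x + y) ≤ max (δ x) (δ y)`, `δ (-x) = δ x`, `δ (B x) = δ x / 2`.  So `q` contracts with
`max κ (1/2)`.  `Hyp.fin`: `δ x ≤ 2 ^ d` implies that `B ^ (d + 1) x` is integral, of bounded norm.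
`Hyp.sep`: `p₀ x = q₀ x = 0` gives `‖x‖ = 0`.  `Hyp.appr` for `x, y`: let `u` be the real vector
with `p₀ (x - y - u) = 0`, `q₀ (0 - u) = 0`, `w` the integral vector nearest to `u`, and
`z = y + w`: `p (x - z) ≤ p₀ (x - y - u) + p₀ (u - w) ≤ M`, and
`q (y - z) = q₀ (-w) + δ (-w) ≤ q₀ (-u) + q₀ (u - w) + 1 ≤ M + 1`. -/
def S_hnn : Prop := ∀ (n : ℕ) (B : Matrix (Fin (n + 1)) (Fin (n + 1)) ℤ) (hB : B.det ≠ 0),
  (∀ μ : ℂ, (B.charpoly.map (Int.castRingHom ℂ)).IsRoot μ → ‖μ‖ ≠ 1) →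
  ∃ (p q : Lam B → ℝ) (κ M C0 : ℝ), Hyp (sig B hB) p q κ M C0

/-- the relators of `⟨x_1, …, x_n, t | [x_i, x_j], t x_i t⁻¹ = x_1 ^ B_{1i} ⋯ x_n ^ B_{ni}⟩`;
the generator `x_i` is `some i`, `t` is `none` -/
def hnnRel {n : ℕ} (B : Matrix (Fin n) (Fin n) ℤ) : Set (FreeGroup (Option (Fin n))) :=
  {r | ∃ i j : Fin n, r = FreeGroup.of (some i) * FreeGroup.of (some j) *
      (FreeGroup.of (some i))⁻¹ * (FreeGroup.of (some j))⁻¹} ∪
  {r | ∃ i : Fin n, r = FreeGroup.of none * FreeGroup.of (some i) * (FreeGroup.of none)⁻¹ *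
      ((List.ofFn fun j => FreeGroup.of (some j) ^ B j i).prod)⁻¹}

/-- CH-34.  The affine model of the presented group (compare `J6H78/CG/M25`): `x_i ↦ (e_i, 0)`,
`t ↦ (0, 1)`.  Every element of the presented group is `t⁻ᵃ v t ^ b` with natural numbers `a, b` and `v`
a product of powers of the `x_i` (the set of these elements contains `1` and is stable under right
multiplication by the generators and their inverses, since `t ^ b v = (B ^ b v) t ^ b` and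
`v t⁻¹ = t⁻¹ (B v)`), and its image is `(B ^ (-a) v, b - a)`; if the image is `(0, 0)` then `v = 0`
and `a = b`.  Surjectivity: `(x, m)` with `B ^ d x` integral is the image of
`t⁻ᵈ (B ^ d x) t ^ d t ^ m`. -/
def S_pres : Prop := ∀ (n : ℕ) (B : Matrix (Fin n) (Fin n) ℤ) (hB : B.det ≠ 0),
  ∃ f : PresentedGroup (hnnRel B) → Lam B × ℤ, Mdl (sig B hB) _ f

end Pool.Agent.J6H54.CH
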